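import Mathlib

namespace Pool.Agent.Lib.MP_ae071c_lc

/-- The list of the first `n` values of a point of Baire space. -/
def seg (x : ℕ → ℕ) (n : ℕ) : List ℕ := (List.range n).map x

/-- Lightface `Σ¹₁` binary relations on Baire space (projections of lightface `Π⁰₁` sets,
in Kleene normal form). -/
def Sigma11 (A : (ℕ → ℕ) → (ℕ → ℕ) → Prop) : Prop :=
  ∃ R : List ℕ × List ℕ × List ℕ → Prop, ComputablePred R ∧
    ∀ x y, A x y ↔ ∃ w : ℕ → ℕ, ∀ n, R (seg x n, seg y n, seg w n)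

/-- Lightface `Δ¹₁` (Hyp) binary relations on Baire space. -/
def Hyp (A : (ℕ → ℕ) → (ℕ → ℕ) → Prop) : Prop :=
  Sigma11 A ∧ Sigma11 (fun x y => ¬ A x y)

/-- Hyp equivalence relations on Baire space. -/
def HypEqv (E : (ℕ → ℕ) → (ℕ → ℕ) → Prop) : Prop :=
  Equivalence E ∧ Hyp E

/-- Hyp reducibility: a reduction whose graph is Hyp. -/
def HypRed (E F : (ℕ → ℕ) → (ℕ → ℕ) → Prop) : Prop :=
  ∃ f : (ℕ → ℕ) → (ℕ → ℕ), Hyp (fun x y => f x = y) ∧ ∀ x y, E x y ↔ F (f x) (f y)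

end Pool.Agent.Lib.MP_ae071c_lc
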