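import Mathlib

-- part Pool.Agent.Lib.MP_ae071c_lc.Gen
section

namespace Pool.Agent.Lib.MP_ae071c_lc

open Set

section
variable {P P' : Type} [Preorder P] [Preorder P']

/-- Dense open subsets of a preorder. -/
def Dn (D : Set P) : Prop := (∀ p, ∃ q ≤ p, q ∈ D) ∧ IsLowerSet D

/-- All sufficiently generic descending chains through `p` lie in `S`. -/
def Gen (p : P) (S : Set (ℕ → P)) : Prop :=
  ∃ D : ℕ → Set P, (∀ n, Dn (D n)) ∧
    ∀ g : ℕ → P, Antitone g → (∃ n, g n ≤ p) → (∀ n, ∃ m, g m ∈ D n) → g ∈ S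

theorem Gen.mono_set {p : P} {S T : Set (ℕ → P)} (h : Gen p S) (hST : S ⊆ T) : Gen p T := by
  obtain ⟨D, hD, h⟩ := h
  exact ⟨D, hD, fun g h1 h2 h3 => hST (h g h1 h2 h3)⟩

theorem Gen.mono {p q : P} {S : Set (ℕ → P)} (h : Gen p S) (hq : q ≤ p) : Gen q S := by
  obtain ⟨D, hD, h⟩ := h
  exact ⟨D, hD, fun g h1 ⟨n, h2⟩ h3 => h g h1 ⟨n, h2.trans hq⟩ h3⟩

theorem gen_thru (p : P) : Gen p {g | Antitone g ∧ ∃ n, g n ≤ p} :=
  ⟨fun _ => univ, fun _ => ⟨fun p => ⟨p, le_rfl, trivial⟩, isLowerSet_univ⟩,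
    fun _ h1 h2 _ => ⟨h1, h2⟩⟩

theorem gen_of_forall {p : P} {S : Set (ℕ → P)} (h : ∀ g, g ∈ S) : Gen p S :=
  (gen_thru p).mono_set (fun g _ => h g)

theorem gen_iInter {p : P} {S : ℕ → Set (ℕ → P)} (h : ∀ n, Gen p (S n)) : Gen p (⋂ n, S n) := by
  choose D hD h using h
  refine ⟨fun n => D n.unpair.1 n.unpair.2, fun n => hD _ _, fun g h1 h2 h3 => ?_⟩
  exact mem_iInter.2 fun n => h n g h1 h2 fun m => by simpa using h3 (Nat.pair n m)

theorem gen_all {p : P} {S : ℕ → (ℕ → P) → Prop} (h : ∀ n, Gen p {g | S n g}) :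
    Gen p {g | ∀ n, S n g} :=
  (gen_iInter h).mono_set (fun _ hg n => mem_iInter.1 hg n)

theorem Gen.inter {p : P} {S T : Set (ℕ → P)} (h : Gen p S) (h' : Gen p T) : Gen p (S ∩ T) := by
  have := gen_iInter (S := fun n => if n = 0 then S else T) (p := p)
    (fun n => by split_ifs <;> assumption)
  refine this.mono_set fun g hg => ?_
  have h0 := mem_iInter.1 hg 0
  have h1 := mem_iInter.1 hg 1
  exact ⟨by simpa using h0, by simpa using h1⟩

theorem Gen.nonempty {p : P} {S : Set (ℕ → P)} (h : Gen p S) : S.Nonempty := by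
  obtain ⟨D, hD, h⟩ := h
  choose f hf hf' using fun n => (hD n).1
  let g : ℕ → P := fun n => Nat.rec p (fun n q => f n q) n
  exact ⟨g, h g (antitone_nat_of_succ_le fun n => hf n (g n)) ⟨0, le_rfl⟩
    fun n => ⟨n + 1, hf' n (g n)⟩⟩

theorem Gen.not_compl {p : P} {S : Set (ℕ → P)} (h : Gen p S) : ¬ Gen p Sᶜ := fun h' => by
  simpa using (h.inter h').nonempty

theorem gen_local {p : P} {S : Set (ℕ → P)} (h : ∀ q ≤ p, ∃ r ≤ q, Gen r S) : Gen p S := by
  classical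
  obtain ⟨A, hA⟩ := zorn_subset {A : Set P | (∀ r ∈ A, Gen r S) ∧
      ∀ a ∈ A, ∀ b ∈ A, (∃ c, c ≤ a ∧ c ≤ b) → a = b} (by
    intro c hc hch
    refine ⟨⋃₀ c, ⟨?_, ?_⟩, fun s hs => subset_sUnion_of_mem hs⟩
    · rintro r ⟨s, hs, hr⟩
      exact (hc hs).1 r hr
    · rintro a ⟨s, hs, ha⟩ b ⟨t, ht, hb⟩ hab
      rcases hch.total hs ht with hst | hts
      · exact (hc ht).2 a (hst ha) b hb hab
      · exact (hc hs).2 a ha b (hts hb) hab)
  obtain ⟨hA1, hA2⟩ := hA.prop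
  have hmax : ∀ r, Gen r S → ∃ a ∈ A, ∃ c, c ≤ a ∧ c ≤ r := by
    intro r hr
    by_contra hcon
    have hin : insert r A ⊆ A := by
      refine hA.le_of_ge (y := insert r A) ⟨?_, ?_⟩ (subset_insert r A)
      · rintro a (rfl | ha)
        exacts [hr, hA1 a ha]
      · rintro a (rfl | ha) b (rfl | hb) ⟨c, hc1, hc2⟩
        · rfl
        · exact (hcon ⟨b, hb, c, hc2, hc1⟩).elim
        · exact (hcon ⟨a, ha, c, hc1, hc2⟩).elim
        · exact hA2 a ha b hb ⟨c, hc1, hc2⟩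
    exact hcon ⟨r, hin (mem_insert r A), r, le_rfl, le_rfl⟩
  choose D hD hDS using hA1
  refine ⟨fun n => {q | (∃ a, ∃ ha : a ∈ A, q ≤ a ∧ q ∈ D a ha n) ∨ ¬ ∃ c, c ≤ q ∧ c ≤ p}, ?_, ?_⟩
  · intro n
    constructor
    · intro q
      by_cases hq : ∃ c, c ≤ q ∧ c ≤ p
      · obtain ⟨c, hcq, hcp⟩ := hq
        obtain ⟨r, hrc, hr⟩ := h c hcp
        obtain ⟨a, ha, d, hda, hdr⟩ := hmax r hr
        obtain ⟨e, hed, he⟩ := (hD a ha n).1 d
        exact ⟨e, hed.trans (hdr.trans (hrc.trans hcq)), Or.inl ⟨a, ha, hed.trans hda, he⟩⟩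
      · exact ⟨q, le_rfl, Or.inr hq⟩
    · rintro q q' hqq (⟨a, ha, h1, h2⟩ | h1)
      · exact Or.inl ⟨a, ha, hqq.trans h1, (hD a ha n).2 hqq h2⟩
      · exact Or.inr fun ⟨c, hc1, hc2⟩ => h1 ⟨c, hc1.trans hqq, hc2⟩
  · rintro g hg ⟨k, hk⟩ hm
    have key : ∀ n, ∃ m a, ∃ ha : a ∈ A, g m ≤ a ∧ g m ∈ D a ha n := by
      intro n
      obtain ⟨m, h1 | h1⟩ := hm n
      · exact ⟨m, h1⟩
      · exact (h1 ⟨g (max m k), hg (le_max_left _ _), (hg (le_max_right _ _)).trans hk⟩).elim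
    obtain ⟨m0, a0, ha0, h0, -⟩ := key 0
    refine hDS a0 ha0 g hg ⟨m0, h0⟩ fun n => ?_
    obtain ⟨m, a, ha, h1, h2⟩ := key n
    obtain rfl : a = a0 := hA2 a ha a0 ha0
      ⟨g (max m m0), (hg (le_max_left _ _)).trans h1, (hg (le_max_right _ _)).trans h0⟩
    exact ⟨m, h2⟩

/-- The Baire property for sets of chains. -/
def BP (S : Set (ℕ → P)) : Prop := ∀ p, ∃ q ≤ p, Gen q S ∨ Gen q Sᶜ

theorem BP.gen_compl {S : Set (ℕ → P)} (h : BP S) {p : P} (hp : ∀ q ≤ p, ¬ Gen q S) :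
    Gen p Sᶜ := by
  refine gen_local fun q hq => ?_
  obtain ⟨r, hr, h1 | h1⟩ := h q
  · exact (hp r (hr.trans hq) h1).elim
  · exact ⟨r, hr, h1⟩

theorem BP.compl {S : Set (ℕ → P)} (h : BP S) : BP Sᶜ := fun p => by
  obtain ⟨q, hq, h1⟩ := h p
  exact ⟨q, hq, by simpa [or_comm] using h1⟩

/-- The σ-algebra of sets of chains with the Baire property. -/
@[reducible] def bp (P : Type) [Preorder P] : MeasurableSpace (ℕ → P) where
  MeasurableSet' := BP
  measurableSet_empty := fun p => ⟨p, le_rfl, Or.inr (gen_of_forall (by simp))⟩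
  measurableSet_compl := fun _ h => h.compl
  measurableSet_iUnion := by
    intro S hS p
    by_cases h : ∃ n, ∃ q ≤ p, Gen q (S n)
    · obtain ⟨n, q, hq, h1⟩ := h
      exact ⟨q, hq, Or.inl (h1.mono_set (subset_iUnion S n))⟩
    · push Not at h
      refine ⟨p, le_rfl, Or.inr ?_⟩
      rw [compl_iUnion]
      exact gen_iInter fun n => (hS n).gen_compl (h n)

/-- Projections of forcing notions. -/
structure IsProj (π : P' → P) : Prop where
  mono : Monotone π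
  opn : ∀ p' q, q ≤ π p' → ∃ q' ≤ p', π q' ≤ q

theorem IsProj.gen {π : P' → P} (hπ : IsProj π) {p' : P'} {S : Set (ℕ → P)}
    (h : Gen (π p') S) : Gen p' {g | (fun n => π (g n)) ∈ S} := by
  obtain ⟨D, hD, h⟩ := h
  refine ⟨fun n => π ⁻¹' D n, fun n => ⟨fun q' => ?_, fun a b hab ha => (hD n).2 (hπ.mono hab) ha⟩,
    fun g h1 ⟨n, h2⟩ h3 => h _ (fun a b hab => hπ.mono (h1 hab)) ⟨n, hπ.mono h2⟩ h3⟩
  obtain ⟨q, hq, hqD⟩ := (hD n).1 (π q')
  obtain ⟨r, hr, hr'⟩ := hπ.opn q' q hq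
  exact ⟨r, hr, (hD n).2 hr' hqD⟩

theorem IsProj.measurable {π : P' → P} (hπ : IsProj π) :
    @Measurable _ _ (bp P') (bp P) (fun g n => π (g n)) := by
  intro S hS p'
  obtain ⟨q, hq, h⟩ := hS (π p')
  obtain ⟨r, hr, hr'⟩ := hπ.opn p' q hq
  exact ⟨r, hr, h.imp (fun h => hπ.gen (h.mono hr')) (fun h => hπ.gen (h.mono hr'))⟩

theorem IsProj.gen_rev {π : P' → P} (hπ : IsProj π) {p' : P'} {S : Set (ℕ → P)} (hS : BP S)
    (h : Gen p' {g | (fun n => π (g n)) ∈ S}) : Gen (π p') S := by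
  have := hS.compl.gen_compl (p := π p') (fun q hq hq' => by
    obtain ⟨r, hr, hr'⟩ := hπ.opn p' q hq
    exact (h.mono hr).not_compl (hπ.gen (hq'.mono hr')))
  simpa using this

theorem isProj_fst : IsProj (Prod.fst : P × P' → P) :=
  ⟨fun _ _ h => h.1, fun p q h => ⟨(q, p.2), ⟨h, le_rfl⟩, le_rfl⟩⟩

theorem isProj_snd : IsProj (Prod.snd : P × P' → P') :=
  ⟨fun _ _ h => h.2, fun p q h => ⟨(p.1, q), ⟨le_rfl, h⟩, le_rfl⟩⟩

theorem isProj_swap : IsProj (fun x : P × P' => (x.2, x.1)) :=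
  ⟨fun _ _ h => ⟨h.2, h.1⟩, fun _ q h => ⟨(q.2, q.1), ⟨h.2, h.1⟩, le_rfl⟩⟩

theorem IsProj.prod {Q Q' : Type} [Preorder Q] [Preorder Q'] {π : P' → P} {ρ : Q' → Q}
    (hπ : IsProj π) (hρ : IsProj ρ) : IsProj (fun x : P' × Q' => (π x.1, ρ x.2)) := by
  refine ⟨fun _ _ h => ⟨hπ.mono h.1, hρ.mono h.2⟩, fun p q h => ?_⟩
  obtain ⟨a, ha, ha'⟩ := hπ.opn p.1 q.1 h.1
  obtain ⟨b, hb, hb'⟩ := hρ.opn p.2 q.2 h.2
  exact ⟨(a, b), ⟨ha, hb⟩, ⟨ha', hb'⟩⟩

end

end Pool.Agent.Lib.MP_ae071c_lc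
end

-- part Pool.Agent.Lib.MP_ae071c_lc.FS
section

namespace Pool.Agent.Lib.MP_ae071c_lc

open Set

/-- A name for a point of `Y`. -/
structure Nm (Y : Type) [MeasurableSpace Y] : Type 1 where
  P : Type
  pre : Preorder P
  ne : Nonempty P
  val : (ℕ → P) → Y
  meas : @Measurable _ _ (@bp P pre) _ val

attribute [instance] Nm.pre Nm.ne

section
variable {Y Y' Y'' : Type} [MeasurableSpace Y] [MeasurableSpace Y'] [MeasurableSpace Y'']

/-- The set of chains in the product along which the pair of values lies in `A`. -/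
def S2 (N : Nm Y) (M : Nm Y') (A : Set (Y × Y')) : Set (ℕ → N.P × M.P) :=
  {g | (N.val (fun n => (g n).1), M.val (fun n => (g n).2)) ∈ A}

def G2 (N : Nm Y) (M : Nm Y') (p : N.P) (q : M.P) (A : Set (Y × Y')) : Prop :=
  Gen (p, q) (S2 N M A)

theorem bp_S2 (N : Nm Y) (M : Nm Y') {A : Set (Y × Y')} (hA : MeasurableSet A) :
    BP (S2 N M A) := by
  have h1 := N.meas.comp (isProj_fst (P := N.P) (P' := M.P)).measurable
  have h2 := M.meas.comp (isProj_snd (P := N.P) (P' := M.P)).measurable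
  exact (h1.prodMk h2) hA

theorem G2.swap {N : Nm Y} {M : Nm Y'} {p : N.P} {q : M.P} {A : Set (Y × Y')}
    (h : G2 N M p q A) : G2 M N q p {z | (z.2, z.1) ∈ A} :=
  (isProj_swap (P := M.P) (P' := N.P)).gen (p' := (q, p)) h

theorem G2.trans {N : Nm Y} {M : Nm Y'} {K : Nm Y''} {p : N.P} {q : M.P} {r : K.P}
    {A : Set (Y × Y')} {B : Set (Y' × Y'')} {C : Set (Y × Y'')} (hC : MeasurableSet C)
    (H : ∀ x y z, (x, y) ∈ A → (y, z) ∈ B → (x, z) ∈ C)
    (h : G2 N M p q A) (h' : G2 M K q r B) : G2 N K p r C := by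
  have p12 : IsProj (fun x : N.P × M.P × K.P => (x.1, x.2.1)) :=
    ⟨fun _ _ h => ⟨h.1, h.2.1⟩, fun a b h => ⟨(b.1, b.2, a.2.2), ⟨h.1, h.2, le_rfl⟩, le_rfl⟩⟩
  have p23 : IsProj (fun x : N.P × M.P × K.P => x.2) := isProj_snd
  have p13 : IsProj (fun x : N.P × M.P × K.P => (x.1, x.2.2)) :=
    ⟨fun _ _ h => ⟨h.1, h.2.2⟩, fun a b h => ⟨(b.1, a.2.1, b.2), ⟨h.1, le_rfl, h.2⟩, le_rfl⟩⟩
  refine p13.gen_rev (p' := (p, q, r)) (bp_S2 N K hC) ?_
  exact ((p12.gen (p' := (p, q, r)) h).inter (p23.gen (p' := (p, q, r)) h')).mono_set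
    fun g hg => H _ _ _ hg.1 hg.2

/-- Forcing a Borel relation depends on a bounded amount of information. -/
def Bdd (A : Set (Y × Y')) : Prop :=
  ∃ (X : Type) (τ : ∀ N : Nm Y, N.P → X), ∀ (N N' : Nm Y) (M : Nm Y') p p' q,
    τ N p = τ N' p' → G2 N M p q A → G2 N' M p' q A

theorem Bdd.compl {A : Set (Y × Y')} (hA : MeasurableSet A) (h : Bdd A) : Bdd Aᶜ := by
  obtain ⟨X, τ, h⟩ := h
  refine ⟨Set X, fun N p => τ N '' {a | a ≤ p}, fun N N' M p p' q hτ H => ?_⟩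
  refine (bp_S2 N' M hA).gen_compl ?_
  rintro ⟨a', b⟩ hab hG
  have : τ N' a' ∈ τ N '' {a | a ≤ p} := by
    simp only at hτ
    rw [hτ]
    exact ⟨a', hab.1, rfl⟩
  obtain ⟨a, ha, ha'⟩ := this
  exact Gen.not_compl (h N' N M a' a b ha'.symm hG) (Gen.mono H (q := (a, b)) ⟨ha, hab.2⟩)

theorem bdd_iInter {A : ℕ → Set (Y × Y')} (h : ∀ n, Bdd (A n)) : Bdd (⋂ n, A n) := by
  choose X τ h using h
  refine ⟨∀ n, X n, fun N p n => τ n N p, fun N N' M p p' q hτ H => ?_⟩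
  have := gen_iInter fun n => h n N N' M p p' q (congrFun hτ n)
    (Gen.mono_set H fun g hg => mem_iInter.1 hg n)
  exact this.mono_set fun g hg => mem_iInter.2 fun n => mem_iInter.1 hg n

theorem bdd_of_measurableSet {A : Set (Y × Y')} (hA : MeasurableSet A) : Bdd A := by
  rw [← generateFrom_prod] at hA
  induction A, hA using MeasurableSpace.generateFrom_induction with
  | hC t ht _ =>
    obtain ⟨s, hs, t, ht, rfl⟩ := ht
    refine ⟨Prop, fun N p => Gen p (N.val ⁻¹' s), fun N N' M p p' q hτ H => ?_⟩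
    have h1 : Gen p (N.val ⁻¹' s) := isProj_fst.gen_rev (p' := (p, q)) (N.meas hs)
      (Gen.mono_set H fun g hg => hg.1)
    have h2 : Gen q (M.val ⁻¹' t) := isProj_snd.gen_rev (p' := (p, q)) (M.meas ht)
      (Gen.mono_set H fun g hg => hg.2)
    simp only at hτ
    rw [hτ] at h1
    exact ((isProj_fst.gen (p' := (p', q)) h1).inter
      (isProj_snd.gen (p' := (p', q)) h2)).mono_set fun g hg => hg
  | empty =>
    refine ⟨Unit, fun _ _ => (), fun N N' M p p' q _ H => ?_⟩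
    obtain ⟨g, hg⟩ := Gen.nonempty H
    exact hg.elim
  | compl t ht ih =>
    rw [generateFrom_prod] at ht
    exact ih.compl ht
  | iUnion s hs ih =>
    rw [generateFrom_prod] at hs
    have := (bdd_iInter fun n => (ih n).compl (hs n)).compl
      (MeasurableSet.iInter fun n => (hs n).compl)
    simpa [compl_iInter] using this

/-- The image of a name under a measurable map. -/
def Nm.map (N : Nm Y) (k : Y → Y') (hk : Measurable k) : Nm Y' :=
  ⟨N.P, N.pre, N.ne, fun g => k (N.val g), hk.comp N.meas⟩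

end

/-- Finite initial pieces of a sequence. -/
structure Cond (β : Type) where
  n : ℕ
  c : ℕ → β

instance {β : Type} : Preorder (Cond β) where
  le a b := b.n ≤ a.n ∧ ∀ i < b.n, a.c i = b.c i
  le_refl _ := ⟨le_rfl, fun _ _ => rfl⟩
  le_trans _ _ _ h h' := ⟨h'.1.trans h.1, fun i hi => (h.2 i (hi.trans_le h'.1)).trans (h'.2 i hi)⟩

theorem Cond.le_def {β : Type} {a b : Cond β} :
    a ≤ b ↔ b.n ≤ a.n ∧ ∀ i < b.n, a.c i = b.c i := Iff.rfl

open Classical in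
noncomputable def lim' {β : Type} (g : ℕ → Cond β) (i : ℕ) : β :=
  if h : ∃ m, i < (g m).n then (g h.choose).c i else (g 0).c i

theorem lim'_eq {β : Type} {g : ℕ → Cond β} (hg : Antitone g) {m : ℕ} {a : Cond β}
    (hm : g m ≤ a) {i : ℕ} (hi : i < a.n) : lim' g i = a.c i := by
  have h : ∃ m, i < (g m).n := ⟨m, hi.trans_le hm.1⟩
  rw [lim', dif_pos h, ← hm.2 i hi]
  have h1 := (hg (le_max_left h.choose m)).2 i h.choose_spec
  have h2 := (hg (le_max_right h.choose m)).2 i (hi.trans_le hm.1)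
  rw [← h1, h2]

section
variable {Y J : Type} [MeasurableSpace Y] [Inhabited Y] (N : J → Nm Y)

/-- Conditions for a generic enumeration of the names indexed by `S`. -/
abbrev RP (S : Set J) : Type := Cond (Option S) × ∀ j, (N j).P

def entry {S : Set J} (o : Option S) (g : ℕ → RP N S) : ℕ × Y :=
  match o with
  | none => (0, default)
  | some j => (1, (N j).val (fun m => (g m).2 j))

noncomputable def enumVal (S : Set J) (g : ℕ → RP N S) (i : ℕ) : ℕ × Y :=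
  entry N (lim' (fun m => (g m).1) i) g

omit [Inhabited Y] in
theorem isProj_coord (S : Set J) (j : J) : IsProj (fun r : RP N S => r.2 j) := by
  classical
  refine ⟨fun _ _ h => h.2 j, fun r q h => ⟨(r.1, Function.update r.2 j q), ⟨le_rfl, ?_⟩, by simp⟩⟩
  intro j'
  by_cases hj : j' = j
  · subst hj
    simpa using h
  · simp [Function.update_of_ne hj]

theorem gen_entry {S : Set J} (r : RP N S) {i : ℕ} (hi : i < r.1.n) :
    Gen r {g | enumVal N S g i = entry N (r.1.c i) g} := by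
  refine (gen_thru r).mono_set ?_
  rintro g ⟨hg, m, hm⟩
  have : lim' (fun m => (g m).1) i = r.1.c i := lim'_eq (fun a b hab => (hg hab).1) hm.1 hi
  simp only [mem_ofPred_eq, enumVal, this]

omit [Inhabited Y] in
theorem exists_ext {S : Set J} (r : RP N S) (i : ℕ) : ∃ r' ≤ r, i < r'.1.n :=
  ⟨(⟨max r.1.n (i + 1), r.1.c⟩, r.2), ⟨⟨le_max_left _ _, fun _ _ => rfl⟩, le_rfl⟩, by simp⟩

omit [Inhabited Y] in
theorem exists_ext' {S : Set J} (r : RP N S) (j : S) :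
    ∃ r' ≤ r, ∃ i < r'.1.n, r'.1.c i = some j := by
  refine ⟨(⟨r.1.n + 1, Function.update r.1.c r.1.n (some j)⟩, r.2),
    ⟨⟨Nat.le_succ _, fun i hi => ?_⟩, le_rfl⟩, r.1.n, by simp, by simp⟩
  simp [Function.update_of_ne hi.ne]

theorem measurable_enumVal (S : Set J) :
    @Measurable _ _ (bp (RP N S)) _ (enumVal N S) := by
  let _ := bp (RP N S)
  refine measurable_pi_lambda _ fun i A hA r => ?_
  obtain ⟨r', hr', hi⟩ := exists_ext N r i
  have hm : Measurable (entry N (r'.1.c i)) := by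
    cases r'.1.c i with
    | none => exact measurable_const
    | some j =>
      exact measurable_const.prodMk ((N j).meas.comp (isProj_coord N S j).measurable)
  obtain ⟨q, hq, h⟩ := hm hA r'
  have h1 := (gen_entry N r' hi).mono hq
  refine ⟨q, hq.trans hr', h.imp (fun h => (h.inter h1).mono_set ?_)
    (fun h => (h.inter h1).mono_set ?_)⟩
  · rintro g ⟨h2, h3⟩
    simp only [mem_preimage, mem_ofPred_eq] at h2 h3 ⊢
    rwa [h3]
  · rintro g ⟨h2, h3⟩
    simp only [mem_preimage, mem_ofPred_eq, mem_compl_iff] at h2 h3 ⊢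
    rwa [h3]

/-- The name for a generic enumeration of the names indexed by `S`. -/
noncomputable def enumNm (S : Set J) : Nm (ℕ → ℕ × Y) :=
  ⟨RP N S, inferInstance, ⟨(⟨0, fun _ => none⟩, fun j => Classical.choice (N j).ne)⟩,
    enumVal N S, measurable_enumVal N S⟩

end

/-- Every active entry of `x` is equivalent to an active entry of `y`. -/
def Half {Y : Type} (E : Y → Y → Prop) (x y : ℕ → ℕ × Y) : Prop :=
  ∀ i, (x i).1 ≠ 0 → ∃ j, (y j).1 ≠ 0 ∧ E (x i).2 (y j).2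

/-- The Friedman–Stanley jump, on sequences with blank entries. -/
def Jump {Y : Type} (E : Y → Y → Prop) (x y : ℕ → ℕ × Y) : Prop := Half E x y ∧ Half E y x

/-- The two names are forced to be equivalent. -/
def Eqv {Y : Type} [MeasurableSpace Y] (E : Y → Y → Prop) (N M : Nm Y) : Prop :=
  ∀ p q, G2 N M p q {z | E z.1 z.2}

section
variable {Y J : Type} [MeasurableSpace Y] {E : Y → Y → Prop}

theorem Eqv.symm (hE : Equivalence E) {N M : Nm Y} (h : Eqv E N M) : Eqv E M N :=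
  fun p q => Gen.mono_set (h q p).swap fun _ hg => hE.symm hg

theorem Eqv.trans (hE : Equivalence E) (hm : MeasurableSet {z : Y × Y | E z.1 z.2})
    {N M K : Nm Y} (h : Eqv E N M) (h' : Eqv E M K) : Eqv E N K := fun p r => by
  obtain ⟨q⟩ := M.ne
  exact (h p q).trans hm (fun _ _ _ h1 h2 => hE.trans h1 h2) (h' q r)

theorem eqv_of_G2 (hE : Equivalence E) (hm : MeasurableSet {z : Y × Y | E z.1 z.2})
    {N M : Nm Y} (hN : Eqv E N N) (hM : Eqv E M M) {p : N.P} {q : M.P}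
    (h : G2 N M p q {z | E z.1 z.2}) : Eqv E N M := fun p' q' =>
  ((hN p' p).trans hm (fun _ _ _ h1 h2 => hE.trans h1 h2) h).trans hm
    (fun _ _ _ h1 h2 => hE.trans h1 h2) (hM q q')

variable [Inhabited Y] (N : J → Nm Y)

theorem half_of_le {S S' : Set J} (H : ∀ j ∈ S, ∃ j' ∈ S', Eqv E (N j) (N j'))
    (r : RP N S) (r' : RP N S') :
    G2 (enumNm N S) (enumNm N S') r r' {z | Half E z.1 z.2} := by
  refine gen_all fun i => gen_local ?_
  rintro ⟨a, a'⟩ -
  obtain ⟨b, hb, hi⟩ := exists_ext N a i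
  cases hc : b.1.c i with
  | none =>
    refine ⟨(b, a'), ⟨hb, le_rfl⟩, ?_⟩
    refine (isProj_fst.gen (p' := (b, a')) (gen_entry N b hi)).mono_set fun g hg h0 => ?_
    simp only [mem_ofPred_eq, hc, entry] at hg
    exact (h0 (congrArg Prod.fst hg)).elim
  | some j =>
    obtain ⟨j', hj', hE⟩ := H j j.2
    obtain ⟨b', hb', i', hi', hc'⟩ := exists_ext' N a' ⟨j', hj'⟩
    refine ⟨(b, b'), ⟨hb, hb'⟩, ?_⟩
    have h1 := isProj_fst.gen (p' := (b, b')) (gen_entry N b hi)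
    have h2 := isProj_snd.gen (p' := (b, b')) (gen_entry N b' hi')
    have h3 := ((isProj_coord N S j).prod (isProj_coord N S' j')).gen (p' := (b, b'))
      (hE (b.2 j) (b'.2 j'))
    refine (h1.inter (h2.inter h3)).mono_set ?_
    rintro g ⟨h4, h5, h6⟩ -
    simp only [mem_ofPred_eq, hc, hc', entry] at h4 h5
    refine ⟨i', ?_, ?_⟩
    · have := congrArg Prod.fst h5
      exact fun h => one_ne_zero (this.symm.trans h)
    · have h7 := congrArg Prod.snd h4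
      have h8 := congrArg Prod.snd h5
      exact h7 ▸ h8 ▸ h6

theorem le_of_half (hE : Equivalence E) (hm : MeasurableSet {z : Y × Y | E z.1 z.2})
    (hN : ∀ j, Eqv E (N j) (N j)) {S S' : Set J} {r : RP N S} {r' : RP N S'}
    (H : G2 (enumNm N S) (enumNm N S') r r' {z | Half E z.1 z.2}) {j : J} (hj : j ∈ S) :
    ∃ j' ∈ S', Eqv E (N j) (N j') := by
  by_contra hcon
  push Not at hcon
  obtain ⟨b, hb, i, hi, hc⟩ := exists_ext' N r ⟨j, hj⟩
  have key : Gen (b, r') {g : ℕ → RP N S × RP N S' | ∀ i',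
      (enumVal N S' (fun n => (g n).2) i').1 ≠ 0 →
        ¬ E ((N j).val (fun m => (g m).1.2 j)) (enumVal N S' (fun n => (g n).2) i').2} := by
    refine gen_all fun i' => gen_local ?_
    rintro ⟨a, a'⟩ -
    obtain ⟨b', hb', hi'⟩ := exists_ext N a' i'
    refine ⟨(a, b'), ⟨le_rfl, hb'⟩, ?_⟩
    have h2 := isProj_snd.gen (p' := (a, b')) (gen_entry N b' hi')
    cases hc' : b'.1.c i' with
    | none =>
      refine h2.mono_set fun g hg h0 => ?_
      simp only [mem_ofPred_eq, hc', entry] at hg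
      exact (h0 (congrArg Prod.fst hg)).elim
    | some j' =>
      have h3 : Gen (a.2 j, b'.2 j') (S2 (N j) (N j') {z | E z.1 z.2})ᶜ :=
        (bp_S2 _ _ hm).gen_compl fun q _ hq =>
          hcon j' j'.2 (eqv_of_G2 hE hm (hN j) (hN j') (p := q.1) (q := q.2) hq)
      have h4 := ((isProj_coord N S j).prod (isProj_coord N S' j')).gen (p' := (a, b')) h3
      refine (h2.inter h4).mono_set ?_
      rintro g ⟨h5, h6⟩ -
      simp only [mem_ofPred_eq, hc', entry] at h5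
      have h8 := congrArg Prod.snd h5
      exact h8 ▸ h6
  have h1 := isProj_fst.gen (p' := (b, r')) (gen_entry N b hi)
  obtain ⟨g, h2, h3, h4⟩ := ((Gen.mono H (q := (b, r')) ⟨hb, le_rfl⟩).inter (h1.inter key)).nonempty
  simp only [mem_ofPred_eq, hc, entry] at h3
  have h5 := congrArg Prod.fst h3
  have h6 := congrArg Prod.snd h3
  obtain ⟨i', h7, h8⟩ := h2 i (fun h => one_ne_zero (h5.symm.trans h))
  have h9 : E (enumVal N S (fun n => (g n).1) i).2 (enumVal N S' (fun n => (g n).2) i').2 := h8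
  rw [h6] at h9
  exact h4 i' h7 h9

end

/-- The Friedman–Stanley theorem: the jump of a Borel equivalence relation does not Borel reduce
to it. -/
theorem friedman_stanley {Y : Type} [MeasurableSpace Y] [Inhabited Y] {E : Y → Y → Prop}
    (hE : Equivalence E) (hm : MeasurableSet {z : Y × Y | E z.1 z.2})
    (k : (ℕ → ℕ × Y) → Y) (hk : Measurable k) : ¬ ∀ x y, Jump E x y ↔ E (k x) (k y) := by
  intro hred
  obtain ⟨X, τ, hτ⟩ := bdd_of_measurableSet hm
  let J : Type := {t : X // ∃ (N : Nm Y) (p : N.P), Eqv E N N ∧ τ N p = t}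
  choose N p hN hp using fun j : J => j.2
  let K : Set J → Nm Y := fun S => (enumNm N S).map k hk
  have hK1 : ∀ S S' : Set J, (∀ j ∈ S, ∃ j' ∈ S', Eqv E (N j) (N j')) →
      (∀ j ∈ S', ∃ j' ∈ S, Eqv E (N j) (N j')) → Eqv E (K S) (K S') := by
    intro S S' h1 h2 r r'
    exact ((half_of_le N h1 r r').inter (half_of_le N h2 r' r).swap).mono_set
      fun g hg => (hred _ _).1 hg
  have hK2 : ∀ S S' : Set J, Eqv E (K S) (K S') → ∀ j ∈ S, ∃ j' ∈ S', Eqv E (N j) (N j') := by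
    intro S S' h j hj
    obtain ⟨r⟩ := (K S).ne
    obtain ⟨r'⟩ := (K S').ne
    exact le_of_half N hE hm hN (r := r) (r' := r')
      (Gen.mono_set (h r r') fun g hg => ((hred _ _).2 hg).1) hj
  have hKK : ∀ S, Eqv E (K S) (K S) := fun S =>
    hK1 S S (fun j hj => ⟨j, hj, hN j⟩) (fun j hj => ⟨j, hj, hN j⟩)
  have hrep : ∀ M : Nm Y, Eqv E M M → ∃ j, Eqv E (N j) M := by
    intro M hM
    obtain ⟨q⟩ := M.ne
    let j : J := ⟨τ M q, M, q, hM, rfl⟩
    exact ⟨j, eqv_of_G2 hE hm (hN j) hM (hτ M (N j) M q (p j) q (hp j).symm (hM q q))⟩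
  let D : Set J := {j | ∃ S : Set J, Eqv E (N j) (K S) ∧ ∀ s ∈ S, ¬ Eqv E (N j) (N s)}
  obtain ⟨j₀, hj₀⟩ := hrep (K D) (hKK D)
  have h1 : j₀ ∉ D := by
    rintro hmem
    obtain ⟨S, hS, hS'⟩ := hmem
    obtain ⟨s, hs, hs'⟩ := hK2 D S ((hj₀.symm hE).trans hE hm hS) j₀ ⟨S, hS, hS'⟩
    exact hS' s hs hs'
  refine h1 ?_
  by_contra h2
  refine h2 ⟨D, hj₀, fun s hs hs' => h2 ?_⟩
  obtain ⟨S, hS, hS'⟩ := hs
  exact ⟨S, hs'.trans hE hm hS, fun t ht ht' => hS' t ht ((hs'.symm hE).trans hE hm ht')⟩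

end Pool.Agent.Lib.MP_ae071c_lc
end
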