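import Mathlib
import Pool.Agent.Lib.MP_ae071c_lc.Defs

-- part Pool.Agent.Lib.MP_ae071c_lc.Eff
section

namespace Pool.Agent.Lib.MP_ae071c_lc

open Encodable

/-- A type presented by a map to Baire space. -/
class Sp (X : Type) where
  ev : X → ℕ → ℕ

open Sp

def Sub (D : List (ℕ × ℕ)) (x : ℕ → ℕ) : Prop := ∀ p ∈ D, x p.1 = p.2

def OpP {α X : Type} [Primcodable α] [Sp X] (P : α → X → Prop) : Prop :=
  ∃ (γ : Type) (_ : Primcodable γ) (S : γ → Prop) (π : γ → α) (δ : γ → List (ℕ × ℕ)),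
    PrimrecPred S ∧ Primrec π ∧ Primrec δ ∧ ∀ a x, P a x ↔ ∃ c, S c ∧ π c = a ∧ Sub (δ c) (ev x)

@[fun_prop]
def Cmp {X Y : Type} [Sp X] [Sp Y] (f : X → Y) : Prop :=
  OpP (fun (p : ℕ × ℕ) x => ev (f x) p.1 = p.2)

section
variable {α β X Y Z : Type} [Primcodable α] [Primcodable β] [Sp X] [Sp Y] [Sp Z]

theorem OpP.of_iff {P Q : α → X → Prop} (h : OpP P) (H : ∀ a x, Q a x ↔ P a x) : OpP Q := by
  have : Q = P := by funext a x; exact propext (H a x)
  rwa [this]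

theorem primrecPred_true : PrimrecPred (fun _ : α => True) :=
  Primrec.primrecPred (by simpa using (Primrec.const true))

theorem OpP.primrec {p : α → Prop} (hp : PrimrecPred p) : OpP (fun a (_ : X) => p a) :=
  ⟨α, inferInstance, p, id, fun _ => [], hp, Primrec.id, Primrec.const _, by simp [Sub]⟩

theorem OpP.evq : OpP (fun (p : ℕ × ℕ) (x : X) => ev x p.1 = p.2) :=
  ⟨ℕ × ℕ, inferInstance, fun _ => True, id, fun c => [c], primrecPred_true, Primrec.id,
    Primrec.list_cons.comp Primrec.id (Primrec.const []), by simp [Sub]⟩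

theorem OpP.and {P Q : α → X → Prop} (hP : OpP P) (hQ : OpP Q) :
    OpP (fun a x => P a x ∧ Q a x) := by
  obtain ⟨γ, _, S, π, δ, hS, hπ, hδ, h⟩ := hP
  obtain ⟨γ', _, S', π', δ', hS', hπ', hδ', h'⟩ := hQ
  refine ⟨γ × γ', inferInstance, fun c => S c.1 ∧ S' c.2 ∧ π c.1 = π' c.2, fun c => π c.1,
    fun c => δ c.1 ++ δ' c.2, ?_, hπ.comp .fst,
    Primrec.list_append.comp (hδ.comp .fst) (hδ'.comp .snd), ?_⟩
  · exact (hS.comp .fst).and ((hS'.comp .snd).and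
      (Primrec.eq.comp (hπ.comp .fst) (hπ'.comp .snd)))
  · intro a x
    simp only [h, h', Sub, List.mem_append, Prod.exists]
    constructor
    · rintro ⟨⟨c, h1, h2, h3⟩, c', h4, h5, h6⟩
      exact ⟨c, c', ⟨h1, h4, h2.trans h5.symm⟩, h2, fun p hp => hp.elim (h3 p) (h6 p)⟩
    · rintro ⟨c, c', ⟨h1, h4, h5⟩, h2, h3⟩
      exact ⟨⟨c, h1, h2, fun p hp => h3 p (Or.inl hp)⟩, c', h4, h5.symm.trans h2,
        fun p hp => h3 p (Or.inr hp)⟩

theorem OpP.or {P Q : α → X → Prop} (hP : OpP P) (hQ : OpP Q) :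
    OpP (fun a x => P a x ∨ Q a x) := by
  classical
  obtain ⟨γ, _, S, π, δ, hS, hπ, hδ, h⟩ := hP
  obtain ⟨γ', _, S', π', δ', hS', hπ', hδ', h'⟩ := hQ
  refine ⟨γ ⊕ γ', inferInstance, Sum.elim S S', Sum.elim π π', Sum.elim δ δ', ?_, ?_, ?_, ?_⟩
  · refine Primrec.primrecPred ?_
    refine (Primrec.sumCasesOn (f := fun c : γ ⊕ γ' => c) Primrec.id
      (hS.decide.comp .snd).to₂ (hS'.decide.comp .snd).to₂).of_eq ?_
    rintro (c | c) <;> simp only [Sum.elim_inl, Sum.elim_inr] <;> congr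
  · refine (Primrec.sumCasesOn (f := fun c : γ ⊕ γ' => c) Primrec.id
      (hπ.comp .snd).to₂ (hπ'.comp .snd).to₂).of_eq ?_
    rintro (c | c) <;> simp
  · refine (Primrec.sumCasesOn (f := fun c : γ ⊕ γ' => c) Primrec.id
      (hδ.comp .snd).to₂ (hδ'.comp .snd).to₂).of_eq ?_
    rintro (c | c) <;> simp
  · intro a x
    simp [h, h']

theorem OpP.ex {P : α × β → X → Prop} (hP : OpP P) : OpP (fun a x => ∃ b, P (a, b) x) := by
  obtain ⟨γ, _, S, π, δ, hS, hπ, hδ, h⟩ := hP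
  refine ⟨γ, inferInstance, S, fun c => (π c).1, δ, hS, Primrec.fst.comp hπ, hδ, ?_⟩
  intro a x
  simp only [h]
  constructor
  · rintro ⟨b, c, h1, h2, h3⟩
    exact ⟨c, h1, by rw [h2], h3⟩
  · rintro ⟨c, h1, h2, h3⟩
    exact ⟨(π c).2, c, h1, by rw [← h2], h3⟩

theorem OpP.re {P : α → X → Prop} (hP : OpP P) {f : β → α} (hf : Primrec f) :
    OpP (fun b x => P (f b) x) := by
  obtain ⟨γ, _, S, π, δ, hS, hπ, hδ, h⟩ := hP
  refine ⟨γ × β, inferInstance, fun c => S c.1 ∧ π c.1 = f c.2, fun c => c.2, fun c => δ c.1,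
    (hS.comp .fst).and (Primrec.eq.comp (hπ.comp .fst) (hf.comp .snd)), .snd, hδ.comp .fst, ?_⟩
  intro b x
  simp only [h, Prod.exists]
  constructor
  · rintro ⟨c, h1, h2, h3⟩
    exact ⟨c, b, ⟨h1, h2⟩, rfl, h3⟩
  · rintro ⟨c, b', ⟨h1, h2⟩, rfl, h3⟩
    exact ⟨c, h1, h2, h3⟩

theorem OpP.ball {P : α → X → Prop} (hP : OpP P) :
    OpP (fun (l : List α) x => ∀ a ∈ l, P a x) := by
  obtain ⟨γ, _, S, π, δ, hS, hπ, hδ, h⟩ := hP
  refine ⟨List γ, inferInstance, fun cs => ∀ c ∈ cs, S c, fun cs => cs.map π,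
    fun cs => cs.flatMap δ, hS.forall_mem_list,
    Primrec.list_map Primrec.id (hπ.comp .snd).to₂,
    Primrec.list_flatMap Primrec.id (hδ.comp .snd).to₂, ?_⟩
  intro l x
  simp only [h]
  constructor
  · intro H
    induction l with
    | nil => exact ⟨[], by simp, rfl, by simp [Sub]⟩
    | cons a l ih =>
      obtain ⟨c, h1, h2, h3⟩ := H a (by simp)
      obtain ⟨cs, h4, h5, h6⟩ := ih (fun a ha => H a (by simp [ha]))
      refine ⟨c :: cs, by simpa using ⟨h1, h4⟩, by simp [h2, h5], ?_⟩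
      intro p hp
      simp only [List.flatMap_cons, List.mem_append] at hp
      exact hp.elim (h3 p) (h6 p)
  · rintro ⟨cs, h1, rfl, h3⟩ a ha
    obtain ⟨c, hc, rfl⟩ := List.mem_map.1 ha
    exact ⟨c, h1 c hc, rfl, fun p hp => h3 p (List.mem_flatMap.2 ⟨c, hc, hp⟩)⟩

theorem OpP.ball' {P : β × α → X → Prop} (hP : OpP P) {f : β → List α} (hf : Primrec f) :
    OpP (fun b x => ∀ a ∈ f b, P (b, a) x) := by
  refine (hP.ball.re (f := fun b => (f b).map (fun a => (b, a)))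
    (Primrec.list_map hf (Primrec.pair .fst .snd).to₂)).of_iff ?_
  intro b x
  simp

theorem OpP.comp {P : α → Y → Prop} (hP : OpP P) {f : X → Y} (hf : Cmp f) :
    OpP (fun a x => P a (f x)) := by
  obtain ⟨γ, _, S, π, δ, hS, hπ, hδ, h⟩ := hP
  have h1 : OpP (fun (q : α × γ) (_ : X) => S q.2 ∧ π q.2 = q.1) :=
    OpP.primrec ((hS.comp .snd).and (Primrec.eq.comp (hπ.comp .snd) .fst))
  have h2 := (OpP.ball hf).re (f := fun q : α × γ => δ q.2) (hδ.comp .snd)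
  refine (h1.and h2).ex.of_iff ?_
  intro a x
  simp only [h, Sub, and_assoc]

@[fun_prop] theorem Cmp.id' : Cmp (fun x : X => x) := OpP.evq

@[fun_prop] theorem Cmp.comp' {f : Y → Z} {g : X → Y} (hf : Cmp f) (hg : Cmp g) :
    Cmp (fun x => f (g x)) := OpP.comp hf hg

instance instSpProd : Sp (X × Y) :=
  ⟨fun p n => if n.bodd then ev p.2 n.div2 else ev p.1 n.div2⟩

theorem ev_prod (p : X × Y) (n : ℕ) :
    ev p n = if n.bodd then ev p.2 n.div2 else ev p.1 n.div2 := rfl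

theorem Cmp.fst0 : Cmp (fun p : X × Y => p.1) := by
  refine (OpP.evq.re (f := fun p : ℕ × ℕ => (2 * p.1, p.2))
    ((Primrec.nat_double.comp .fst).pair .snd)).of_iff ?_
  intro a x
  simp [ev_prod, Nat.div2_val]

theorem Cmp.snd0 : Cmp (fun p : X × Y => p.2) := by
  refine (OpP.evq.re (f := fun p : ℕ × ℕ => (2 * p.1 + 1, p.2))
    ((Primrec.nat_double_succ.comp .fst).pair .snd)).of_iff ?_
  intro a x
  simp [ev_prod, Nat.div2_val]

@[fun_prop] theorem Cmp.fst {f : X → Y × Z} (hf : Cmp f) : Cmp (fun x => (f x).1) :=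
  Cmp.comp' Cmp.fst0 hf

@[fun_prop] theorem Cmp.snd {f : X → Y × Z} (hf : Cmp f) : Cmp (fun x => (f x).2) :=
  Cmp.comp' Cmp.snd0 hf

@[fun_prop] theorem Cmp.pair {f : X → Y} {g : X → Z} (hf : Cmp f) (hg : Cmp g) :
    Cmp (fun x => (f x, g x)) := by
  have hr : Primrec (fun p : ℕ × ℕ => (p.1.div2, p.2)) := (Primrec.nat_div2.comp .fst).pair .snd
  have hb : ∀ b : Bool, PrimrecPred (fun p : ℕ × ℕ => p.1.bodd = b) := fun b =>
    Primrec.eq.comp (Primrec.nat_bodd.comp .fst) (Primrec.const b)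
  refine (((OpP.primrec (hb true)).and (OpP.re hg hr)).or
    ((OpP.primrec (hb false)).and (OpP.re hf hr))).of_iff ?_
  intro a x
  cases h : a.1.bodd <;> simp [ev_prod, h]

end

/-- Discrete spaces. -/
class Dis (α : Type) [Primcodable α] [Sp α] : Prop where
  ev_eq : ∀ (a : α) n, ev a n = encode a

instance instSpNat : Sp ℕ := ⟨fun a _ => a⟩
instance : Dis ℕ := ⟨fun _ _ => rfl⟩
instance instSpList : Sp (List ℕ) := ⟨fun a _ => encode a⟩
instance : Dis (List ℕ) := ⟨fun _ _ => rfl⟩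

instance instSpPi {α Y : Type} [Primcodable α] [Inhabited α] [Sp Y] : Sp (α → Y) :=
  ⟨fun f n => ev (f ((decode n.unpair.1).getD default)) n.unpair.2⟩

theorem ev_pi {α Y : Type} [Primcodable α] [Inhabited α] [Sp Y] (f : α → Y) (n : ℕ) :
    ev f n = ev (f ((decode n.unpair.1).getD default)) n.unpair.2 := rfl

section
variable {α β γ X Y Z : Type} [Primcodable α] [Primcodable β] [Primcodable γ]
  [Sp X] [Sp Y] [Sp Z] [Sp α] [Dis α]

theorem Cmp.graph {f : X → α} (hf : Cmp f) : OpP (fun a x => f x = a) := by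
  refine (OpP.re hf (f := fun a : α => (0, encode a))
    ((Primrec.const 0).pair Primrec.encode)).of_iff ?_
  intro a x
  simp [Dis.ev_eq]

theorem Cmp.of_graph {f : X → α} (hf : OpP (fun a x => f x = a)) : Cmp f := by
  have h1 := hf.re (f := fun q : (ℕ × ℕ) × α => q.2) .snd
  have h2 : OpP (fun (q : (ℕ × ℕ) × α) (_ : X) => encode q.2 = q.1.2) :=
    OpP.primrec (Primrec.eq.comp (Primrec.encode.comp .snd) (Primrec.snd.comp .fst))
  refine (h1.and h2).ex.of_iff ?_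
  intro a x
  simp [Dis.ev_eq]

theorem OpP.subst {P : β × α → X → Prop} (hP : OpP P) {f : X → α} (hf : Cmp f) :
    OpP (fun b x => P (b, f x) x) := by
  refine ((hf.graph.re (f := fun q : β × α => q.2) .snd).and hP).ex.of_iff ?_
  intro a x
  simp

theorem OpP.toParam {P : β → X × α → Prop} (hP : OpP P) :
    OpP (fun (q : β × α) x => P q.1 (x, q.2)) := by
  obtain ⟨γ, _, S, π, δ, hS, hπ, hδ, h⟩ := hP
  have hb : ∀ b : Bool, PrimrecPred (fun p : ((β × α) × γ) × (ℕ × ℕ) => p.2.1.bodd = b) :=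
    fun b => Primrec.eq.comp (Primrec.nat_bodd.comp (Primrec.fst.comp .snd)) (Primrec.const b)
  have h0 : OpP (fun (p : ((β × α) × γ) × (ℕ × ℕ)) (x : X) => ev (x, p.1.1.2) p.2.1 = p.2.2) := by
    have h1 : OpP (fun (p : ((β × α) × γ) × (ℕ × ℕ)) (_ : X) => encode p.1.1.2 = p.2.2) :=
      OpP.primrec (Primrec.eq.comp
        (Primrec.encode.comp (Primrec.snd.comp (Primrec.fst.comp .fst))) (Primrec.snd.comp .snd))
    have h2 := (OpP.evq (X := X)).re
      (f := fun p : ((β × α) × γ) × (ℕ × ℕ) => (p.2.1.div2, p.2.2))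
      ((Primrec.nat_div2.comp (Primrec.fst.comp .snd)).pair (Primrec.snd.comp .snd))
    refine (((OpP.primrec (hb true)).and h1).or ((OpP.primrec (hb false)).and h2)).of_iff ?_
    intro a x
    cases h : a.2.1.bodd <;> simp [ev_prod, h, Dis.ev_eq]
  have h3 := h0.ball' (f := fun q : (β × α) × γ => δ q.2) (hδ.comp .snd)
  have h4 : OpP (fun (q : (β × α) × γ) (_ : X) => S q.2 ∧ π q.2 = q.1.1) :=
    OpP.primrec ((hS.comp .snd).and (Primrec.eq.comp (hπ.comp .snd) (Primrec.fst.comp .fst)))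
  refine (h4.and h3).ex.of_iff ?_
  intro a x
  simp only [h, Sub, and_assoc]

@[fun_prop] theorem Cmp.const (a : α) : Cmp (fun _ : X => a) :=
  Cmp.of_graph (OpP.primrec (Primrec.eq.comp (Primrec.const a) Primrec.id))

theorem Cmp.primrec [Sp β] [Dis β] {g : β → α} (hg : Primrec g) {f : X → β} (hf : Cmp f) :
    Cmp (fun x => g (f x)) :=
  Cmp.of_graph (OpP.subst (P := fun (q : α × β) _ => g q.2 = q.1)
    (OpP.primrec (Primrec.eq.comp (hg.comp .snd) .fst)) hf)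

theorem Cmp.primrec₂ [Sp β] [Dis β] [Sp γ] [Dis γ] {g : β → γ → α} (hg : Primrec₂ g)
    {f : X → β} (hf : Cmp f) {f' : X → γ} (hf' : Cmp f') : Cmp (fun x => g (f x) (f' x)) :=
  Cmp.of_graph (OpP.subst (P := fun (q : α × β) x => g q.2 (f' x) = q.1)
    (OpP.subst (P := fun (q : (α × β) × γ) _ => g q.1.2 q.2 = q.1.1)
      (OpP.primrec (Primrec.eq.comp (hg.comp (Primrec.snd.comp .fst) .snd)
        (Primrec.fst.comp .fst))) hf') hf)

/-- Application, as a named function. -/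
def ap {α Y : Type} (f : α → Y) (a : α) : Y := f a

@[fun_prop] theorem Cmp.ap [Inhabited α] {f : X → α → Y} (hf : Cmp f) {g : X → α} (hg : Cmp g) :
    Cmp (fun x => ap (f x) (g x)) := by
  have h1 := OpP.re hf (f := fun q : (ℕ × ℕ) × α => (Nat.pair (encode q.2) q.1.1, q.1.2))
    ((Primrec₂.natPair.comp (Primrec.encode.comp .snd) (Primrec.fst.comp .fst)).pair
      (Primrec.snd.comp .fst))
  refine (h1.subst hg).of_iff ?_
  intro a x
  simp [ev_pi, MP_ae071c_lc.ap]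

theorem Cmp.lam [Inhabited α] {f : X → α → Y} (hf : Cmp (fun q : X × α => f q.1 q.2)) :
    Cmp f := by
  have h1 := OpP.toParam hf
  refine (h1.re (f := fun p : ℕ × ℕ =>
    ((p.1.unpair.2, p.2), ((decode p.1.unpair.1 : Option α)).getD default)) ?_).of_iff ?_
  · exact ((Primrec.snd.comp (Primrec.unpair.comp .fst)).pair .snd).pair
      (Primrec.option_getD_default.comp
        (Primrec.decode.comp (Primrec.fst.comp (Primrec.unpair.comp .fst))))
  · intro a x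
    simp [ev_pi]

end

@[fun_prop] theorem Cmp.add {X : Type} [Sp X] {f g : X → ℕ} (hf : Cmp f) (hg : Cmp g) :
    Cmp (fun x => f x + g x) := Cmp.primrec₂ Primrec.nat_add hf hg

@[fun_prop] theorem Cmp.mul {X : Type} [Sp X] {f g : X → ℕ} (hf : Cmp f) (hg : Cmp g) :
    Cmp (fun x => f x * g x) := Cmp.primrec₂ Primrec.nat_mul hf hg

@[fun_prop] theorem Cmp.natPair {X : Type} [Sp X] {f g : X → ℕ} (hf : Cmp f) (hg : Cmp g) :
    Cmp (fun x => Nat.pair (f x) (g x)) := Cmp.primrec₂ Primrec₂.natPair hf hg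

@[fun_prop] theorem Cmp.unpair1 {X : Type} [Sp X] {f : X → ℕ} (hf : Cmp f) :
    Cmp (fun x => (Nat.unpair (f x)).1) := Cmp.primrec (Primrec.fst.comp Primrec.unpair) hf

@[fun_prop] theorem Cmp.unpair2 {X : Type} [Sp X] {f : X → ℕ} (hf : Cmp f) :
    Cmp (fun x => (Nat.unpair (f x)).2) := Cmp.primrec (Primrec.snd.comp Primrec.unpair) hf

/-- Appending one entry. -/
def snoc (s : List ℕ) (a : ℕ) : List ℕ := s ++ [a]

@[fun_prop] theorem Cmp.snoc {X : Type} [Sp X] {f : X → List ℕ} {g : X → ℕ} (hf : Cmp f)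
    (hg : Cmp g) : Cmp (fun x => snoc (f x) (g x)) := Cmp.primrec₂ Primrec.list_concat hf hg

theorem seg_succ (w : ℕ → ℕ) (n : ℕ) : seg w (n + 1) = snoc (seg w n) (w n) := by
  simp [seg, snoc, List.range_succ]

theorem seg_getElem? (w : ℕ → ℕ) {n i : ℕ} (h : i < n) : (seg w n)[i]? = some (w i) := by
  simp [seg, List.getElem?_range h]

theorem seg_getElem?_eq {w : ℕ → ℕ} {n i v : ℕ} (h : (seg w n)[i]? = some v) : w i = v := by
  by_cases hi : i < n
  · rw [seg_getElem? w hi] at h; simpa using h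
  · rw [List.getElem?_eq_none (by simp [seg]; omega)] at h; simp at h

theorem ev_baire (w : ℕ → ℕ) (n : ℕ) : ev w n = w n.unpair.1 := rfl

@[fun_prop] theorem Cmp.seg {X : Type} [Sp X] {f : X → ℕ → ℕ} {g : X → ℕ} (hf : Cmp f)
    (hg : Cmp g) : Cmp (fun x => seg (f x) (g x)) := by
  refine Cmp.of_graph ?_
  have h0 : OpP (fun (q : (List ℕ × ℕ) × ℕ) x => q.1.1[q.2]? = some (f x q.2)) := by
    have h1 := OpP.re hf (f := fun q : ((List ℕ × ℕ) × ℕ) × ℕ => (Nat.pair q.1.2 0, q.2))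
      ((Primrec₂.natPair.comp (Primrec.snd.comp .fst) (Primrec.const 0)).pair .snd)
    have h2 : OpP (fun (q : ((List ℕ × ℕ) × ℕ) × ℕ) (_ : X) => q.1.1.1[q.1.2]? = some q.2) :=
      OpP.primrec (Primrec.eq.comp (Primrec.list_getElem?.comp
        (Primrec.fst.comp (Primrec.fst.comp .fst)) (Primrec.snd.comp .fst))
        (Primrec.option_some.comp .snd))
    refine (h1.and h2).ex.of_iff ?_
    intro a x
    simp [ev_baire]
  have h3 := h0.ball' (f := fun q : List ℕ × ℕ => List.range q.2) (Primrec.list_range.comp .snd)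
  have h4 : OpP (fun (q : List ℕ × ℕ) (_ : X) => q.1.length = q.2) :=
    OpP.primrec (Primrec.eq.comp (Primrec.list_length.comp .fst) .snd)
  refine ((h4.and h3).subst hg).of_iff ?_
  intro l x
  simp only [List.mem_range]
  constructor
  · rintro rfl
    exact ⟨by simp [MP_ae071c_lc.seg], fun i hi => seg_getElem? _ hi⟩
  · rintro ⟨h1, h2⟩
    apply List.ext_getElem?
    intro i
    by_cases hi : i < g x
    · rw [h2 i hi, seg_getElem? _ hi]
    · rw [List.getElem?_eq_none (by simp [MP_ae071c_lc.seg]; omega),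
        List.getElem?_eq_none (by omega)]

/-- Lightface `Σ⁰₁`. -/
def Op {X : Type} [Sp X] (P : X → Prop) : Prop := OpP (fun (_ : Unit) x => P x)

/-- Lightface `Π⁰₁`. -/
def Cl {X : Type} [Sp X] (P : X → Prop) : Prop := Op (fun x => ¬ P x)

/-- Lightface `Σ¹₁`. -/
def S11 {X : Type} [Sp X] (P : X → Prop) : Prop :=
  ∃ Q : X × (ℕ → ℕ) → Prop, Cl Q ∧ ∀ x, P x ↔ ∃ w, Q (x, w)

class Cov (Y : Type) [Sp Y] : Prop where
  cov : ∃ s : (ℕ → ℕ) → Y, Cmp s ∧ Function.Surjective s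

section
variable {α β X Y Z : Type} [Primcodable α] [Primcodable β]
  [Sp X] [Sp Y] [Sp Z] [Sp α] [Dis α] [Sp β] [Dis β]

theorem Op.of_iff {P Q : X → Prop} (h : Op P) (H : ∀ x, Q x ↔ P x) : Op Q :=
  OpP.of_iff h (fun _ x => H x)

theorem Op.comp {P : Y → Prop} (h : Op P) {f : X → Y} (hf : Cmp f) : Op (fun x => P (f x)) :=
  OpP.comp h hf

theorem Op.and {P Q : X → Prop} (h : Op P) (h' : Op Q) : Op (fun x => P x ∧ Q x) :=
  OpP.and h h'

theorem Op.or {P Q : X → Prop} (h : Op P) (h' : Op Q) : Op (fun x => P x ∨ Q x) :=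
  OpP.or h h'

theorem Op.ex {Q : X × α → Prop} (h : Op Q) : Op (fun x => ∃ a, Q (x, a)) :=
  (OpP.toParam h).ex

theorem OpP.toOp {P : α → X → Prop} (h : OpP P) {f : Y → α} (hf : Cmp f) {g : Y → X}
    (hg : Cmp g) : Op (fun y => P (f y) (g y)) :=
  OpP.subst (P := fun (q : Unit × α) y => P q.2 (g y)) ((h.comp hg).re .snd) hf

theorem Op.primrec {p : α → Prop} (hp : PrimrecPred p) {f : X → α} (hf : Cmp f) :
    Op (fun x => p (f x)) := (OpP.primrec (X := X) hp).toOp hf Cmp.id'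

theorem Op.primrec₂ {r : α → β → Prop} (hr : PrimrecRel r) {f : X → α} (hf : Cmp f)
    {g : X → β} (hg : Cmp g) : Op (fun x => r (f x) (g x)) :=
  (OpP.subst (P := fun (q : α × β) (_ : X) => r q.1 q.2) (OpP.primrec hr) hg).toOp hf Cmp.id'

theorem Op.eq {f g : X → α} (hf : Cmp f) (hg : Cmp g) : Op (fun x => f x = g x) :=
  Op.primrec₂ Primrec.eq hf hg

theorem Op.ne {f g : X → α} (hf : Cmp f) (hg : Cmp g) : Op (fun x => f x ≠ g x) :=
  Op.primrec₂ (r := fun a b => a ≠ b) Primrec.eq.not hf hg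

theorem Op.normal {P : X → Prop} (h : Op P) :
    ∃ g : ℕ → List (ℕ × ℕ), Primrec g ∧ ∀ x, P x ↔ ∃ n, Sub (g n) (ev x) := by
  classical
  obtain ⟨γ, _, S, π, δ, hS, -, hδ, h⟩ := h
  refine ⟨fun n => Option.casesOn (decode n : Option γ) [(0, 0), (0, 1)]
    (fun c => if S c then δ c else [(0, 0), (0, 1)]), ?_, ?_⟩
  · exact Primrec.option_casesOn Primrec.decode (Primrec.const _)
      (Primrec.ite (hS.comp .snd) (hδ.comp .snd) (Primrec.const _)).to₂
  · intro x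
    have hbad : ¬ Sub [(0, 0), (0, 1)] (ev x) := by
      intro H
      have h1 := H (0, 0) (by simp)
      have h2 := H (0, 1) (by simp)
      simp only at h1 h2
      omega
    refine (h () x).trans ?_
    constructor
    · rintro ⟨c, h1, -, h3⟩
      exact ⟨encode c, by simpa [h1] using h3⟩
    · rintro ⟨n, hn⟩
      cases hd : (decode n : Option γ) with
      | none => simp only [hd] at hn; exact (hbad hn).elim
      | some c =>
        simp only [hd] at hn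
        by_cases hc : S c
        · exact ⟨c, hc, rfl, by simpa [hc] using hn⟩
        · rw [if_neg hc] at hn; exact (hbad hn).elim

theorem Cl.of_iff {P Q : X → Prop} (h : Cl P) (H : ∀ x, Q x ↔ P x) : Cl Q :=
  Op.of_iff h (fun x => not_congr (H x))

theorem Cl.comp {P : Y → Prop} (h : Cl P) {f : X → Y} (hf : Cmp f) : Cl (fun x => P (f x)) :=
  Op.comp h hf

theorem Cl.and {P Q : X → Prop} (h : Cl P) (h' : Cl Q) : Cl (fun x => P x ∧ Q x) :=
  (Op.or h h').of_iff (fun _ => not_and_or)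

theorem Cl.or {P Q : X → Prop} (h : Cl P) (h' : Cl Q) : Cl (fun x => P x ∨ Q x) :=
  (Op.and h h').of_iff (fun _ => not_or)

theorem Cl.all {Q : X × α → Prop} (h : Cl Q) : Cl (fun x => ∀ a, Q (x, a)) :=
  (Op.ex h).of_iff (fun _ => not_forall)

theorem Op.not {P : X → Prop} (h : Op P) : Cl (fun x => ¬ P x) :=
  Op.of_iff h (fun _ => not_not)

theorem Cl.eq {f g : X → α} (hf : Cmp f) (hg : Cmp g) : Cl (fun x => f x = g x) := Op.ne hf hg

theorem Cl.ne {f g : X → α} (hf : Cmp f) (hg : Cmp g) : Cl (fun x => f x ≠ g x) :=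
  (Op.eq hf hg).not

theorem Cl.funeq [Inhabited β] {f g : X → β → α} (hf : Cmp f) (hg : Cmp g) :
    Cl (fun x => f x = g x) := by
  refine (Cl.all (Q := fun q : X × β => ap (f q.1) q.2 = ap (g q.1) q.2)
    (Cl.eq (by fun_prop) (by fun_prop))).of_iff ?_
  intro x
  simp [ap, funext_iff]

instance : Cov (ℕ → ℕ) := ⟨⟨fun x => x, Cmp.id', fun x => ⟨x, rfl⟩⟩⟩

instance [Inhabited α] : Cov α :=
  ⟨⟨fun x => (decode (ap x 0)).getD default,
    Cmp.primrec (g := fun n : ℕ => ((decode n : Option α)).getD default)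
      (Primrec.option_getD_default.comp Primrec.decode) (by fun_prop),
    fun a => ⟨fun _ => encode a, by simp [ap]⟩⟩⟩

instance [hX : Cov X] [hY : Cov Y] : Cov (X × Y) := by
  obtain ⟨s, hs, hs'⟩ := hX.cov
  obtain ⟨t, ht, ht'⟩ := hY.cov
  refine ⟨⟨fun x => (s (fun n => ap x (2 * n)), t (fun n => ap x (2 * n + 1))), ?_, ?_⟩⟩
  · exact (hs.comp' (Cmp.lam (by fun_prop))).pair (ht.comp' (Cmp.lam (by fun_prop)))
  · rintro ⟨a, b⟩
    obtain ⟨u, rfl⟩ := hs' a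
    obtain ⟨v, rfl⟩ := ht' b
    refine ⟨fun n => if n % 2 = 0 then u (n / 2) else v (n / 2), ?_⟩
    have h1 : ∀ n, (2 * n + 1) % 2 ≠ 0 := by intro n; omega
    have h2 : ∀ n, (2 * n + 1) / 2 = n := by intro n; omega
    simp [ap, h2]

instance [Inhabited α] [hY : Cov Y] : Cov (α → Y) := by
  obtain ⟨t, ht, ht'⟩ := hY.cov
  refine ⟨⟨fun x a => t (fun n => ap x (Nat.pair (encode a) n)), ?_, ?_⟩⟩
  · refine Cmp.lam (ht.comp' (Cmp.lam ?_))
    have : Cmp (fun q : ((ℕ → ℕ) × α) × ℕ => encode q.1.2) :=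
      Cmp.primrec Primrec.encode (by fun_prop)
    fun_prop
  · intro f
    choose u hu using fun a => ht' (f a)
    refine ⟨fun n => u ((decode n.unpair.1).getD default) n.unpair.2, ?_⟩
    funext a
    simp [ap, hu]

theorem S11.of_iff {P Q : X → Prop} (h : S11 P) (H : ∀ x, Q x ↔ P x) : S11 Q := by
  have : Q = P := by funext x; exact propext (H x)
  rwa [this]

theorem S11.mk' [hY : Cov Y] {Q : X × Y → Prop} (h : Cl Q) : S11 (fun x => ∃ w, Q (x, w)) := by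
  obtain ⟨t, ht, ht'⟩ := hY.cov
  refine ⟨fun q => Q (q.1, t q.2), h.comp (by fun_prop), fun x => ?_⟩
  constructor
  · rintro ⟨w, hw⟩
    obtain ⟨u, rfl⟩ := ht' w
    exact ⟨u, hw⟩
  · rintro ⟨u, hu⟩
    exact ⟨_, hu⟩

theorem Cl.s11 {P : X → Prop} (h : Cl P) : S11 P :=
  ⟨fun q => P q.1, h.comp (by fun_prop), fun x => by simp⟩

theorem S11.comp {P : Y → Prop} (h : S11 P) {f : X → Y} (hf : Cmp f) :
    S11 (fun x => P (f x)) := by
  obtain ⟨Q, hQ, h⟩ := h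
  exact ⟨fun q => Q (f q.1, q.2), hQ.comp (by fun_prop), fun x => h _⟩

theorem S11.and {P Q : X → Prop} (h : S11 P) (h' : S11 Q) : S11 (fun x => P x ∧ Q x) := by
  obtain ⟨R, hR, h⟩ := h
  obtain ⟨R', hR', h'⟩ := h'
  refine (S11.mk' (Q := fun q : X × ((ℕ → ℕ) × (ℕ → ℕ)) => R (q.1, q.2.1) ∧ R' (q.1, q.2.2))
    ((hR.comp (by fun_prop)).and (hR'.comp (by fun_prop)))).of_iff ?_
  intro x
  simp [h, h']

theorem S11.or {P Q : X → Prop} (h : S11 P) (h' : S11 Q) : S11 (fun x => P x ∨ Q x) := by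
  obtain ⟨R, hR, h⟩ := h
  obtain ⟨R', hR', h'⟩ := h'
  exact ⟨fun q => R q ∨ R' q, hR.or hR', fun x => by simp [h, h', exists_or]⟩

theorem S11.ex [Cov Y] {P : X × Y → Prop} (h : S11 P) : S11 (fun x => ∃ y, P (x, y)) := by
  obtain ⟨R, hR, h⟩ := h
  refine (S11.mk' (Q := fun q : X × (Y × (ℕ → ℕ)) => R ((q.1, q.2.1), q.2.2))
    (hR.comp (by fun_prop))).of_iff ?_
  intro x
  simp [h]

theorem S11.all [Inhabited α] {P : X × α → Prop} (h : S11 P) :
    S11 (fun x => ∀ a, P (x, a)) := by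
  obtain ⟨R, hR, h⟩ := h
  refine (S11.mk' (Q := fun q : X × (α → ℕ → ℕ) => ∀ a, R ((q.1, a), ap q.2 a))
    (Cl.all (Q := fun q : (X × (α → ℕ → ℕ)) × α => R ((q.1.1, q.2), ap q.1.2 q.2))
      (hR.comp (by fun_prop)))).of_iff ?_
  intro x
  simp only [h, ap]
  exact Classical.skolem

theorem cl_sub {g : ℕ → List (ℕ × ℕ)} (hg : Primrec g) :
    Cl (fun q : X × ℕ => Sub (g q.2) (ev q.1)) := by
  have h1 := (OpP.evq (X := X)).re (f := fun q : (ℕ × (ℕ × ℕ)) × ℕ => (q.1.2.1, q.2))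
    ((Primrec.fst.comp (Primrec.snd.comp .fst)).pair .snd)
  have h2 : OpP (fun (q : (ℕ × (ℕ × ℕ)) × ℕ) (_ : X) => q.1.2 ∈ g q.1.1 ∧ q.2 ≠ q.1.2.2) := by
    refine OpP.primrec (PrimrecPred.and ?_ ?_)
    · have := (Primrec.eq (α := ℕ × ℕ)).exists_mem_list.comp
        (hg.comp (Primrec.fst.comp (Primrec.fst (α := ℕ × (ℕ × ℕ)) (β := ℕ))))
        (Primrec.snd.comp .fst)
      exact this.of_eq (by simp)
    · exact (Primrec.eq.comp .snd (Primrec.snd.comp (Primrec.snd.comp .fst))).not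
  refine (((h1.and h2).ex.ex).toOp (f := fun q : X × ℕ => q.2) (g := fun q : X × ℕ => q.1)
    (by fun_prop) (by fun_prop)).of_iff ?_
  intro q
  simp [Sub]

theorem Op.s11 {P : X → Prop} (h : Op P) : S11 P := by
  obtain ⟨g, hg, h⟩ := h.normal
  exact (S11.mk' (cl_sub (X := X) hg)).of_iff h

end

end Pool.Agent.Lib.MP_ae071c_lc
end

-- part Pool.Agent.Lib.MP_ae071c_lc.Univ
section

namespace Pool.Agent.Lib.MP_ae071c_lc

open Encodable Sp Denumerable

section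
variable {X : Type} [Sp X]

/-- A universal effectively open set. -/
theorem op_universal (X : Type) [Sp X] : ∃ U : ℕ × X → Prop, Op U ∧
    ∀ P : X → Prop, Op P → ∃ e, ∀ x, P x ↔ U (e, x) := by
  have h1 : OpP (fun (q : ℕ × ((ℕ × ℕ) × List (ℕ × ℕ))) (_ : X) =>
      Nat.Partrec.Code.evaln q.2.1.1 (ofNat Nat.Partrec.Code q.1) q.2.1.2 = some (encode q.2.2)) := by
    refine OpP.primrec (Primrec.eq.comp ?_
      (Primrec.option_some.comp (Primrec.encode.comp (Primrec.snd.comp .snd))))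
    exact Nat.Partrec.Code.primrec_evaln.comp
      (((Primrec.fst.comp (Primrec.fst.comp .snd)).pair
        ((Primrec.ofNat Nat.Partrec.Code).comp .fst)).pair
        (Primrec.snd.comp (Primrec.fst.comp .snd)))
  have h2 := (OpP.ball (OpP.evq (X := X))).re
    (f := fun q : ℕ × ((ℕ × ℕ) × List (ℕ × ℕ)) => q.2.2) (Primrec.snd.comp .snd)
  refine ⟨_, ((h1.and h2).ex).toOp (f := fun q : ℕ × X => q.1) (g := fun q : ℕ × X => q.2)
    (by fun_prop) (by fun_prop), ?_⟩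
  intro P hP
  obtain ⟨g, hg, h⟩ := hP.normal
  have hg' : Nat.Partrec (fun n => (Part.some (encode (g n)) : Part ℕ)) := by
    have := Partrec.nat_iff.1 (Primrec.encode.comp hg).to_comp.partrec
    exact this
  obtain ⟨c, hc⟩ := Nat.Partrec.Code.exists_code.1 hg'
  refine ⟨encode c, fun x => (h x).trans ?_⟩
  simp only [ofNat_encode, Prod.exists]
  constructor
  · rintro ⟨n, hn⟩
    have : encode (g n) ∈ c.eval n := by rw [hc]; simp
    obtain ⟨k, hk⟩ := Nat.Partrec.Code.evaln_complete.1 this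
    exact ⟨k, n, g n, hk, hn⟩
  · rintro ⟨k, n, D, hk, hD⟩
    have := Nat.Partrec.Code.evaln_sound (show encode D ∈ Nat.Partrec.Code.evaln k c n from hk)
    rw [hc] at this
    simp only [Part.mem_some_iff, encode_inj] at this
    exact ⟨n, this ▸ hD⟩

theorem cl_universal (X : Type) [Sp X] : ∃ U : ℕ × X → Prop, Cl U ∧
    ∀ P : X → Prop, Cl P → ∃ e, ∀ x, P x ↔ U (e, x) := by
  obtain ⟨U, hU, h⟩ := op_universal X
  refine ⟨fun q => ¬ U q, hU.not, fun P hP => ?_⟩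
  obtain ⟨e, he⟩ := h _ hP
  exact ⟨e, fun x => by simp only [← he x, not_not]⟩

theorem list_bound (D : List (ℕ × ℕ)) : ∃ N, ∀ p ∈ D, p.1 < N := by
  induction D with
  | nil => exact ⟨0, by simp⟩
  | cons a D ih =>
    obtain ⟨N, hN⟩ := ih
    refine ⟨max N (a.1 + 1), ?_⟩
    intro p hp
    rcases List.mem_cons.1 hp with rfl | hp
    · omega
    · have := hN p hp
      omega

theorem idx_le (k : ℕ) : k.div2.unpair.1 ≤ k :=
  (Nat.unpair_left_le _).trans (by rw [Nat.div2_val]; omega)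

/-- Closed sets are bodies of trees. -/
theorem Cl.tree {Q : X × (ℕ → ℕ) → Prop} (hQ : Cl Q) : ∃ T : X × List ℕ → Prop, Cl T ∧
    ∀ x w, Q (x, w) ↔ ∀ n, T (x, seg w (n + 1)) := by
  obtain ⟨g, hg, h⟩ := Op.normal hQ
  have hb : ∀ b : Bool, PrimrecPred (fun p : (List ℕ × ℕ) × (ℕ × ℕ) => p.2.1.bodd = b) :=
    fun b => Primrec.eq.comp (Primrec.nat_bodd.comp (Primrec.fst.comp .snd)) (Primrec.const b)
  have h1 : OpP (fun (p : (List ℕ × ℕ) × (ℕ × ℕ)) (_ : X) =>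
      p.1.1[p.2.1.div2.unpair.1]? = some p.2.2) :=
    OpP.primrec (Primrec.eq.comp (Primrec.list_getElem?.comp (Primrec.fst.comp .fst)
      (Primrec.fst.comp (Primrec.unpair.comp (Primrec.nat_div2.comp (Primrec.fst.comp .snd)))))
      (Primrec.option_some.comp (Primrec.snd.comp .snd)))
  have h2 := (OpP.evq (X := X)).re
    (f := fun p : (List ℕ × ℕ) × (ℕ × ℕ) => (p.2.1.div2, p.2.2))
    ((Primrec.nat_div2.comp (Primrec.fst.comp .snd)).pair (Primrec.snd.comp .snd))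
  have h3 := (((OpP.primrec (hb true)).and h1).or ((OpP.primrec (hb false)).and h2)).ball'
    (f := fun q : List ℕ × ℕ => g q.2) (hg.comp .snd)
  refine ⟨_, (h3.ex.toOp (f := fun q : X × List ℕ => q.2) (g := fun q : X × List ℕ => q.1)
    (by fun_prop) (by fun_prop)).not, ?_⟩
  intro x w
  rw [← not_iff_not, h (x, w)]
  simp only [not_forall, not_not]
  constructor
  · rintro ⟨n, hn⟩
    obtain ⟨N, hN⟩ := list_bound (g n)
    refine ⟨N, n, fun p hp => ?_⟩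
    have h4 := hn p hp
    have h5 := hN p hp
    have h6 := idx_le p.1
    rw [ev_prod] at h4
    cases hb : p.1.bodd
    · right; simpa [hb] using h4
    · left
      rw [seg_getElem? w (by omega)]
      simpa [hb, ev_baire] using h4
  · rintro ⟨N, n, hn⟩
    refine ⟨n, fun p hp => ?_⟩
    rw [ev_prod]
    rcases hn p hp with ⟨h4, h5⟩ | ⟨h4, h5⟩
    · simpa [h4, ev_baire] using seg_getElem?_eq h5
    · simpa [h4] using h5

theorem OpP.computable {α : Type} [Primcodable α] {p : α → Prop}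
    (hp : ComputablePred p) : OpP (fun a (_ : X) => ¬ p a) := by
  obtain ⟨f, hf, rfl⟩ := ComputablePred.computable_iff.1 hp
  obtain ⟨c, hc⟩ := Nat.Partrec.Code.exists_code.1 hf
  have h1 : OpP (fun (q : α × ℕ) (_ : X) =>
      Nat.Partrec.Code.evaln q.2 c (encode q.1) = some (encode false)) :=
    OpP.primrec (Primrec.eq.comp (Nat.Partrec.Code.primrec_evaln.comp
      ((Primrec.snd.pair (Primrec.const c)).pair (Primrec.encode.comp .fst))) (Primrec.const _))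
  refine h1.ex.of_iff ?_
  intro a _
  have h2 : ∀ v, v ∈ c.eval (encode a) ↔ v = encode (f a) := by
    intro v
    rw [hc]
    simp
  have h3 := Nat.Partrec.Code.evaln_complete (c := c) (n := encode a) (x := encode false)
  rw [h2] at h3
  simp only [Option.mem_def, encode_inj] at h3
  refine Iff.trans ?_ h3
  show (¬ f a = true) ↔ _
  cases f a <;> simp

end

theorem Sigma11.s11 {A : (ℕ → ℕ) → (ℕ → ℕ) → Prop} (h : Sigma11 A) :
    S11 (fun p : (ℕ → ℕ) × (ℕ → ℕ) => A p.1 p.2) := by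
  obtain ⟨R, hR, h⟩ := h
  refine ⟨fun q => ∀ n, R (seg q.1.1 n, seg q.1.2 n, seg q.2 n), ?_, fun p => h p.1 p.2⟩
  refine Cl.all (Q := fun q : (((ℕ → ℕ) × (ℕ → ℕ)) × (ℕ → ℕ)) × ℕ =>
    R (seg q.1.1.1 q.2, seg q.1.1.2 q.2, seg q.1.2 q.2)) ?_
  have h1 := (OpP.computable (X := (((ℕ → ℕ) × (ℕ → ℕ)) × (ℕ → ℕ)) × ℕ) hR).re
    (f := fun a : ((Unit × List ℕ) × List ℕ) × List ℕ => (a.1.1.2, a.1.2, a.2))
    ((Primrec.snd.comp (Primrec.fst.comp .fst)).pair ((Primrec.snd.comp .fst).pair .snd))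
  exact ((h1.subst (f := fun q => seg q.1.2 q.2) (by fun_prop)).subst
    (f := fun q => seg q.1.1.2 q.2) (by fun_prop)).subst
    (f := fun q => seg q.1.1.1 q.2) (by fun_prop)

/-- Looking up a coordinate in a triple of finite sequences. -/
def look (l : List ℕ × List ℕ × List ℕ) (k : ℕ) : Option ℕ :=
  bif k.bodd then l.2.2[k.div2.unpair.1]? else
    bif k.div2.bodd then l.2.1[k.div2.div2.unpair.1]? else l.1[k.div2.div2.unpair.1]?

theorem look_primrec : Primrec₂ look := by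
  have h1 : Primrec (fun k : ℕ => k.div2.unpair.1) :=
    Primrec.fst.comp (Primrec.unpair.comp Primrec.nat_div2)
  exact Primrec.cond (Primrec.nat_bodd.comp .snd)
    (Primrec.list_getElem?.comp (Primrec.snd.comp (Primrec.snd.comp .fst)) (h1.comp .snd))
    (Primrec.cond (Primrec.nat_bodd.comp (Primrec.nat_div2.comp .snd))
      (Primrec.list_getElem?.comp (Primrec.fst.comp (Primrec.snd.comp .fst))
        (h1.comp (Primrec.nat_div2.comp .snd)))
      (Primrec.list_getElem?.comp (Primrec.fst.comp .fst) (h1.comp (Primrec.nat_div2.comp .snd))))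

theorem look_sound {x y w : ℕ → ℕ} {n k v : ℕ}
    (h : look (seg x n, seg y n, seg w n) k = some v) : ev ((x, y), w) k = v := by
  unfold look at h
  simp only [ev_prod, ev_baire]
  cases h1 : k.bodd <;> cases h2 : k.div2.bodd <;> simp only [h1, h2, cond_true, cond_false] at h <;>
    simpa using seg_getElem?_eq h

theorem look_complete {x y w : ℕ → ℕ} {n k : ℕ} (h : k < n) :
    look (seg x n, seg y n, seg w n) k = some (ev ((x, y), w) k) := by
  have h3 := idx_le k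
  have h4 := idx_le k.div2
  have h5 : k.div2 ≤ k := by rw [Nat.div2_val]; omega
  unfold look
  simp only [ev_prod, ev_baire]
  cases h1 : k.bodd <;> cases h2 : k.div2.bodd <;> simp only [cond_true, cond_false] <;>
    rw [seg_getElem? _ (by omega)] <;> simp

theorem S11.sigma11 {A : (ℕ → ℕ) → (ℕ → ℕ) → Prop}
    (h : S11 (fun p : (ℕ → ℕ) × (ℕ → ℕ) => A p.1 p.2)) : Sigma11 A := by
  obtain ⟨Q, hQ, h⟩ := h
  obtain ⟨g, hg, hg'⟩ := Op.normal hQ
  refine ⟨fun l => ∀ m < l.1.length, ¬ ∀ p ∈ g m, look l p.1 = some p.2, ?_, ?_⟩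
  · refine PrimrecPred.computablePred ?_
    have h1 : PrimrecRel (fun (p : ℕ × ℕ) (l : List ℕ × List ℕ × List ℕ) =>
        look l p.1 = some p.2) :=
      Primrec.eq.comp (look_primrec.comp .snd (Primrec.fst.comp .fst))
        (Primrec.option_some.comp (Primrec.snd.comp .fst))
    have h2 : PrimrecRel (fun (m : ℕ) (l : List ℕ × List ℕ × List ℕ) =>
        ¬ ∀ p ∈ g m, look l p.1 = some p.2) :=
      PrimrecPred.not (h1.forall_mem_list.comp (hg.comp .fst) .snd)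
    have h3 := h2.forall_mem_list.comp
      (Primrec.list_range.comp (Primrec.list_length.comp
        (Primrec.fst (α := List ℕ) (β := List ℕ × List ℕ)))) Primrec.id
    exact h3.of_eq (by simp)
  · intro x y
    refine (h (x, y)).trans (exists_congr fun w => ?_)
    rw [← not_iff_not]
    refine (hg' ((x, y), w)).trans ?_
    push Not
    constructor
    · rintro ⟨m, hm⟩
      obtain ⟨N, hN⟩ := list_bound (g m)
      refine ⟨max N (m + 1), m, by simp [seg], fun p hp => ?_⟩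
      rw [look_complete (by have := hN p hp; omega), hm p hp]
    · rintro ⟨n, m, -, hm⟩
      exact ⟨m, fun p hp => look_sound (hm p hp)⟩

theorem hyp_iff {A : (ℕ → ℕ) → (ℕ → ℕ) → Prop} :
    Hyp A ↔ S11 (fun p : (ℕ → ℕ) × (ℕ → ℕ) => A p.1 p.2) ∧
      S11 (fun p : (ℕ → ℕ) × (ℕ → ℕ) => ¬ A p.1 p.2) :=
  ⟨fun h => ⟨h.1.s11, h.2.s11⟩, fun h => ⟨h.1.sigma11, h.2.sigma11⟩⟩

/-- A total function with `Σ¹₁` graph is Hyp. -/
theorem hyp_fun_of_s11 {f : (ℕ → ℕ) → (ℕ → ℕ)}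
    (h : S11 (fun p : (ℕ → ℕ) × (ℕ → ℕ) => f p.1 = p.2)) : Hyp (fun x y => f x = y) := by
  refine hyp_iff.2 ⟨h, ?_⟩
  have h1 : S11 (fun q : ((ℕ → ℕ) × (ℕ → ℕ)) × (ℕ → ℕ) => f q.1.1 = q.2) :=
    h.comp (f := fun q : ((ℕ → ℕ) × (ℕ → ℕ)) × (ℕ → ℕ) => (q.1.1, q.2)) (by fun_prop)
  have h2 : Op (fun q : ((ℕ → ℕ) × (ℕ → ℕ)) × (ℕ → ℕ) => ¬ q.2 = q.1.2) :=
    Cl.funeq (by fun_prop) (by fun_prop)
  refine (h1.and h2.s11).ex.of_iff ?_
  intro p
  simp

end Pool.Agent.Lib.MP_ae071c_lc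
end

-- part Pool.Agent.Lib.MP_ae071c_lc.Rank
section

namespace Pool.Agent.Lib.MP_ae071c_lc

open Encodable Sp

/-- `t` is a child of `s` in the tree `T`. -/
def ch (T : List ℕ → Prop) (t s : List ℕ) : Prop := ∃ a, t = snoc s a ∧ T t

open Classical in
/-- The rank of a node, `⊤` on the ill-founded part. -/
noncomputable def rk (T : List ℕ → Prop) (s : List ℕ) : WithTop Ordinal.{0} :=
  if h : Acc (ch T) s then (h.rank : Ordinal.{0}) else ⊤

theorem rk_of_acc {T : List ℕ → Prop} {s : List ℕ} (h : Acc (ch T) s) :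
    rk T s = (h.rank : Ordinal.{0}) := by simp [rk, h]

theorem rk_eq_top {T : List ℕ → Prop} {s : List ℕ} : rk T s = ⊤ ↔ ¬ Acc (ch T) s := by
  by_cases h : Acc (ch T) s <;> simp [rk, h]

theorem rk_child_lt {T : List ℕ → Prop} {s : List ℕ} (h : rk T s ≠ ⊤) {a : ℕ}
    (ha : T (snoc s a)) : rk T (snoc s a) < rk T s := by
  have hs : Acc (ch T) s := by simpa [rk_eq_top] using h
  have hc : ch T (snoc s a) s := ⟨a, rfl, ha⟩
  rw [rk_of_acc hs, rk_of_acc (hs.inv hc)]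
  exact_mod_cast hs.rank_lt_of_rel hc

theorem exists_child_top {T : List ℕ → Prop} {s : List ℕ} (h : rk T s = ⊤) :
    ∃ a, T (snoc s a) ∧ rk T (snoc s a) = ⊤ := by
  obtain ⟨t, ht, a, rfl, ha⟩ := exists_not_acc_lt_of_not_acc (rk_eq_top.1 h)
  exact ⟨a, ha, rk_eq_top.2 ht⟩

theorem exists_child_ge {T : List ℕ → Prop} {s : List ℕ} {o : WithTop Ordinal.{0}}
    (h : o < rk T s) : ∃ a, T (snoc s a) ∧ o ≤ rk T (snoc s a) := by
  by_cases hs : Acc (ch T) s
  · rw [rk_of_acc hs] at h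
    lift o to Ordinal.{0} using h.ne_top
    have h' : o < hs.rank := by exact_mod_cast h
    rw [hs.rank_eq, Ordinal.lt_iSup_iff] at h'
    obtain ⟨⟨t, a, rfl, ha⟩, ht⟩ := h'
    refine ⟨a, ha, ?_⟩
    rw [rk_of_acc (hs.inv ⟨a, rfl, ha⟩)]
    exact_mod_cast Order.lt_succ_iff.1 ht
  · obtain ⟨a, ha, ha'⟩ := exists_child_top (rk_eq_top.2 hs)
    exact ⟨a, ha, ha' ▸ le_top⟩

theorem rk_nil_eq_top {T : List ℕ → Prop} :
    rk T [] = ⊤ ↔ ∃ w : ℕ → ℕ, ∀ n, T (seg w (n + 1)) := by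
  constructor
  · intro h
    choose f hf using fun s : {s // rk T s = ⊤} => exists_child_top s.2
    let u : ℕ → {s // rk T s = ⊤} := fun n =>
      Nat.rec ⟨[], h⟩ (fun _ s => ⟨snoc s.1 (f s), (hf s).2⟩) n
    have hu : ∀ n, seg (fun n => f (u n)) n = (u n).1 := by
      intro n
      induction n with
      | zero => rfl
      | succ n ih => rw [seg_succ, ih]
    refine ⟨fun n => f (u n), fun n => ?_⟩
    rw [seg_succ, hu]
    exact (hf (u n)).1
  · rintro ⟨w, hw⟩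
    rw [rk_eq_top, not_acc_iff_exists_descending_chain]
    exact ⟨seg w, rfl, fun n => ⟨w n, seg_succ w n, hw n⟩⟩

/-- Simulations between trees. -/
def Sim (T : List ℕ → Prop) (s : List ℕ) (T' : List ℕ → Prop) (s' : List ℕ) : Prop :=
  ∃ R : List ℕ → List ℕ → ℕ, R s s' = 0 ∧ ∀ u u' a, R u u' = 0 → T (snoc u a) →
    ∃ b, T' (snoc u' b) ∧ R (snoc u a) (snoc u' b) = 0

theorem sim_iff {T T' : List ℕ → Prop} {s s' : List ℕ} :
    Sim T s T' s' ↔ rk T s ≤ rk T' s' := by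
  classical
  constructor
  · rintro ⟨R, h0, hR⟩
    by_cases hs' : Acc (ch T') s'
    · induction hs' generalizing s with
      | intro s' hs' ih =>
        have hne : rk T' s' ≠ ⊤ := by
          rw [Ne, rk_eq_top, not_not]
          exact Acc.intro s' hs'
        by_contra hlt
        obtain ⟨a, ha, hle⟩ := exists_child_ge (not_le.1 hlt)
        obtain ⟨b, hb, hb'⟩ := hR s s' a h0 ha
        exact absurd (hle.trans (ih _ ⟨b, rfl, hb⟩ hb')) (not_le.2 (rk_child_lt hne hb))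
    · rw [rk_eq_top.2 hs']
      exact le_top
  · intro h
    refine ⟨fun u u' => if rk T u ≤ rk T' u' then 0 else 1, by simp [h], ?_⟩
    intro u u' a hu ha
    have hu' : rk T u ≤ rk T' u' := by
      by_contra hn
      simp [hn] at hu
    by_cases ht : rk T' u' = ⊤
    · obtain ⟨b, hb, hb'⟩ := exists_child_top ht
      exact ⟨b, hb, by simp [hb']⟩
    · have h1 : rk T u ≠ ⊤ := ne_top_of_le_ne_top ht hu'
      obtain ⟨b, hb, hb'⟩ := exists_child_ge ((rk_child_lt h1 ha).trans_le hu')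
      exact ⟨b, hb, by simp [hb']⟩

theorem s11_rk_le {X : Type} [Sp X] {T T' : X × List ℕ → Prop} (hT : Cl T) (hT' : Cl T')
    {s s' : X → List ℕ} (hs : Cmp s) (hs' : Cmp s') :
    S11 (fun x => rk (fun u => T (x, u)) (s x) ≤ rk (fun u => T' (x, u)) (s' x)) := by
  have h1 : Cl (fun q : X × (List ℕ → List ℕ → ℕ) => ap (ap q.2 (s q.1)) (s' q.1) = 0) :=
    Cl.eq (by fun_prop) (by fun_prop)
  have h2 : Op (fun q : (((X × (List ℕ → List ℕ → ℕ)) × List ℕ) × List ℕ) × ℕ =>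
      ap (ap q.1.1.1.2 q.1.1.2) q.1.2 ≠ 0) := Op.ne (by fun_prop) (by fun_prop)
  have h3 : Op (fun q : (((X × (List ℕ → List ℕ → ℕ)) × List ℕ) × List ℕ) × ℕ =>
      ¬ T (q.1.1.1.1, snoc q.1.1.2 q.2)) := Op.comp hT (by fun_prop)
  have h4 : Cl (fun q : ((((X × (List ℕ → List ℕ → ℕ)) × List ℕ) × List ℕ) × ℕ) × ℕ =>
      T' (q.1.1.1.1.1, snoc q.1.1.2 q.2) ∧
        ap (ap q.1.1.1.1.2 (snoc q.1.1.1.2 q.1.2)) (snoc q.1.1.2 q.2) = 0) :=
    (hT'.comp (by fun_prop)).and (Cl.eq (by fun_prop) (by fun_prop))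
  refine (h1.s11.and (h2.s11.or (h3.s11.or h4.s11.ex)).all.all.all).ex.of_iff ?_
  intro x
  rw [← sim_iff]
  simp only [Sim, ap, imp_iff_not_or]

/-- A universal family of trees for `Σ¹₁` sets. -/
theorem tree_universal (X : Type) [Sp X] : ∃ T : (ℕ × X) × List ℕ → Prop, Cl T ∧
    ∀ P : X → Prop, S11 P → ∃ e, ∀ x, P x ↔ rk (fun u => T ((e, x), u)) [] = ⊤ := by
  obtain ⟨U, hU, h⟩ := cl_universal (X × List ℕ)
  refine ⟨fun q => U (q.1.1, (q.1.2, q.2)), hU.comp (by fun_prop), ?_⟩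
  rintro P ⟨Q, hQ, hP⟩
  obtain ⟨T, hT, hT'⟩ := hQ.tree
  obtain ⟨e, he⟩ := h T hT
  refine ⟨e, fun x => ?_⟩
  simp only [rk_nil_eq_top, hP, hT', he]

theorem S11.tree {X : Type} [Sp X] {P : X → Prop} (hP : S11 P) :
    ∃ T : X × List ℕ → Prop, Cl T ∧ ∀ x, P x ↔ rk (fun u => T (x, u)) [] = ⊤ := by
  obtain ⟨Q, hQ, hP⟩ := hP
  obtain ⟨T, hT, hT'⟩ := hQ.tree
  exact ⟨T, hT, fun x => by simp only [rk_nil_eq_top, hP, hT']⟩

/-- A `Σ¹₁` family of total relations that contains the graph of every Hyp function. -/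
theorem exists_param : ∃ Γ : ℕ × (ℕ → ℕ) × (ℕ → ℕ) → Prop, S11 Γ ∧ (∀ e x, ∃ y, Γ (e, x, y)) ∧
    ∀ g : (ℕ → ℕ) → (ℕ → ℕ), S11 (fun p : (ℕ → ℕ) × (ℕ → ℕ) => g p.1 = p.2) →
      ∃ e, ∀ x y, Γ (e, x, y) ↔ g x = y := by
  obtain ⟨T, hT, h⟩ := tree_universal ((ℕ → ℕ) × ℕ × ℕ)
  refine ⟨fun q => ∀ n m, rk (fun u => T ((q.1, (q.2.1, n, q.2.2 n)), u)) [] ≤
    rk (fun u => T ((q.1, (q.2.1, n, m)), u)) [], ?_, ?_, ?_⟩
  · exact (s11_rk_le (X := ((ℕ × (ℕ → ℕ) × (ℕ → ℕ)) × ℕ) × ℕ)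
      (T := fun q => T ((q.1.1.1.1, (q.1.1.1.2.1, q.1.1.2, ap q.1.1.1.2.2 q.1.1.2)), q.2))
      (T' := fun q => T ((q.1.1.1.1, (q.1.1.1.2.1, q.1.1.2, q.1.2)), q.2))
      (hT.comp (by fun_prop)) (hT.comp (by fun_prop)) (s := fun _ => []) (s' := fun _ => [])
      (by fun_prop) (by fun_prop)).all.all
  · intro e x
    refine ⟨fun n => Function.argmin (fun m => rk (fun u => T ((e, (x, n, m)), u)) []), ?_⟩
    intro n m
    exact Function.argmin_le (fun m => rk (fun u => T ((e, (x, n, m)), u)) []) m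
  · intro g hg
    have h1 : S11 (fun q : ((ℕ → ℕ) × ℕ × ℕ) × (ℕ → ℕ) => g q.1.1 = q.2) :=
      hg.comp (f := fun q : ((ℕ → ℕ) × ℕ × ℕ) × (ℕ → ℕ) => (q.1.1, q.2)) (by fun_prop)
    have h2 : Op (fun q : ((ℕ → ℕ) × ℕ × ℕ) × (ℕ → ℕ) => ap q.2 q.1.2.1 ≠ q.1.2.2) :=
      Op.ne (by fun_prop) (by fun_prop)
    obtain ⟨e, he⟩ := h _ (h1.and h2.s11).ex
    simp only [ap, exists_eq_left', Prod.forall] at he
    refine ⟨e, fun x y => ⟨fun H => ?_, ?_⟩⟩
    · funext n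
      by_contra hne
      have h3 := H n (g x n)
      simp only at h3
      rw [(he x n (y n)).1 hne, top_le_iff, ← he] at h3
      exact h3 rfl
    · rintro rfl n m
      by_cases hm : g x n = m
      · simp [hm]
      · simp only [(he x n m).1 hm, le_top]

end Pool.Agent.Lib.MP_ae071c_lc
end

-- part Pool.Agent.Lib.MP_ae071c_lc.Q1
section

namespace Pool.Agent.Lib.MP_ae071c_lc

open Encodable Sp

/-- Functions with `Σ¹₁` graph. -/
def HF {X Y : Type} [Sp X] [Sp Y] (f : X → Y) : Prop := S11 (fun p : X × Y => f p.1 = p.2)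

theorem S11.compHF {X Y : Type} [Sp X] [Sp Y] [Cov Y] {P : Y → Prop} (hP : S11 P) {f : X → Y}
    (hf : HF f) : S11 (fun x => P (f x)) := by
  refine (S11.and hf (hP.comp (f := fun q : X × Y => q.2) (by fun_prop))).ex.of_iff ?_
  intro x
  simp

theorem S11.pull {X : Type} [Sp X] {A : (ℕ → ℕ) → (ℕ → ℕ) → Prop}
    (hA : S11 (fun p : (ℕ → ℕ) × (ℕ → ℕ) => A p.1 p.2)) {f g : X → ℕ → ℕ} (hf : HF f)
    (hg : HF g) : S11 (fun x => A (f x) (g x)) := by
  have h1 : S11 (fun q : (X × (ℕ → ℕ)) × (ℕ → ℕ) => f q.1.1 = q.1.2) :=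
    hf.comp (f := fun q : (X × (ℕ → ℕ)) × (ℕ → ℕ) => q.1) (by fun_prop)
  have h2 : S11 (fun q : (X × (ℕ → ℕ)) × (ℕ → ℕ) => g q.1.1 = q.2) :=
    hg.comp (f := fun q : (X × (ℕ → ℕ)) × (ℕ → ℕ) => (q.1.1, q.2)) (by fun_prop)
  have h3 : S11 (fun q : (X × (ℕ → ℕ)) × (ℕ → ℕ) => A q.1.2 q.2) :=
    hA.comp (f := fun q : (X × (ℕ → ℕ)) × (ℕ → ℕ) => (q.1.2, q.2)) (by fun_prop)
  refine (h1.and (h2.and h3)).ex.ex.of_iff ?_
  intro x
  simp

theorem HF.compCmp {X Y Z : Type} [Sp X] [Sp Y] [Sp Z] {f : Y → Z} (hf : HF f) {g : X → Y}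
    (hg : Cmp g) : HF (fun x => f (g x)) :=
  S11.comp hf (f := fun q : X × Z => (g q.1, q.2)) (by fun_prop)

theorem Cmp.hf {X : Type} [Sp X] {f : X → ℕ → ℕ} (hf : Cmp f) : HF f :=
  (Cl.funeq (f := fun q : X × (ℕ → ℕ) => f q.1) (g := fun q => q.2)
    (by fun_prop) (by fun_prop)).s11

theorem HF.comp {X Y Z : Type} [Sp X] [Sp Y] [Sp Z] [Cov Y] {f : Y → Z} (hf : HF f) {g : X → Y}
    (hg : HF g) : HF (fun x => f (g x)) := by
  have h1 : S11 (fun q : (X × Z) × Y => g q.1.1 = q.2) :=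
    S11.comp hg (f := fun q : (X × Z) × Y => (q.1.1, q.2)) (by fun_prop)
  have h2 : S11 (fun q : (X × Z) × Y => f q.2 = q.1.2) :=
    S11.comp hf (f := fun q : (X × Z) × Y => (q.2, q.1.2)) (by fun_prop)
  refine (h1.and h2).ex.of_iff ?_
  intro x
  simp

theorem HF.ite {X Y : Type} [Sp X] [Sp Y] {c : X → Prop} [DecidablePred c] (hc : Cl c)
    {f g : X → Y} (hf : HF f) (hg : HF g) : HF (fun x => if c x then f x else g x) := by
  have h1 : Cl (fun q : X × Y => c q.1) := hc.comp (by fun_prop)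
  refine ((h1.s11.and hf).or ((Op.s11 h1).and hg)).of_iff ?_
  intro q
  by_cases h : c q.1 <;> simp [h]

theorem cmp_zero {X : Type} [Sp X] : Cmp (fun (_ : X) (_ : ℕ) => (0 : ℕ)) :=
  Cmp.lam (by fun_prop)

theorem hypEqv_pull {E : (ℕ → ℕ) → (ℕ → ℕ) → Prop} (hE : HypEqv E) {f : (ℕ → ℕ) → ℕ → ℕ}
    (hf : HF f) : HypEqv (fun x y => E (f x) (f y)) := by
  obtain ⟨h1, h2⟩ := hyp_iff.1 hE.2
  have h3 : HF (fun p : (ℕ → ℕ) × (ℕ → ℕ) => f p.1) := hf.compCmp (by fun_prop)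
  have h4 : HF (fun p : (ℕ → ℕ) × (ℕ → ℕ) => f p.2) := hf.compCmp (by fun_prop)
  exact ⟨⟨fun _ => hE.1.refl _, hE.1.symm, hE.1.trans⟩,
    hyp_iff.2 ⟨h1.pull h3 h4, S11.pull (A := fun x y => ¬ E x y) h2 h3 h4⟩⟩

theorem hypRed_iff {E F : (ℕ → ℕ) → (ℕ → ℕ) → Prop} :
    HypRed E F ↔ ∃ f : (ℕ → ℕ) → ℕ → ℕ, HF f ∧ ∀ x y, E x y ↔ F (f x) (f y) :=
  ⟨fun ⟨f, hf, h⟩ => ⟨f, (hyp_iff.1 hf).1, h⟩, fun ⟨f, hf, h⟩ => ⟨f, hyp_fun_of_s11 hf, h⟩⟩

/-- A closed set with full projection which no Hyp map can enter forever. -/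
theorem exists_jump : ∃ (Z : (ℕ → ℕ) → Prop) (p : (ℕ → ℕ) → ℕ → ℕ), Cl Z ∧ Cmp p ∧
    (∀ x, ∃ u, Z u ∧ p u = x) ∧
    ∀ (g : (ℕ → ℕ) → ℕ → ℕ), HF g → ∀ A : Set (ℕ → ℕ),
      (∀ x ∈ A, Z (g x) ∧ p (g x) ∈ A) → A = ∅ := by
  obtain ⟨Γ, hΓ, htot, huniv⟩ := exists_param
  have h1 : S11 (fun q : (((ℕ → ℕ) × (ℕ → ℕ)) × ℕ) × (ℕ → ℕ) => Γ (q.1.2, q.1.1.1, q.2)) :=
    hΓ.comp (by fun_prop)
  have h2 : Cl (fun q : (((ℕ → ℕ) × (ℕ → ℕ)) × ℕ) × (ℕ → ℕ) =>
      ap q.1.1.2 q.1.2 = ap q.2 q.1.2) := Cl.eq (by fun_prop) (by fun_prop)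
  obtain ⟨W, hW, hW'⟩ := (h1.and h2.s11).ex.all
  simp only [ap, Prod.forall] at hW'
  obtain ⟨s, hs, hs'⟩ := Cov.cov (Y := ((ℕ → ℕ) × (ℕ → ℕ)) × (ℕ → ℕ))
  refine ⟨fun u => W (s u), fun u => (s u).1.1, hW.comp hs, by fun_prop, ?_, ?_⟩
  · intro x
    choose y hy using fun e => htot e x
    obtain ⟨w, hw⟩ := (hW' x (fun e => y e e)).1 (fun e => ⟨y e, hy e, rfl⟩)
    obtain ⟨u, hu⟩ := hs' ((x, fun e => y e e), w)
    exact ⟨u, by simpa [hu] using hw, by simp [hu]⟩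
  · intro g hg A hA
    have h3 : Cmp (fun (y : ℕ → ℕ) (e : ℕ) => ap (s y).1.2 e + 1) := Cmp.lam (by fun_prop)
    obtain ⟨e, he⟩ := huniv (fun x e => ap (s (g x)).1.2 e + 1) (h3.hf.comp hg)
    have key : ∀ n, ∀ x ∈ A, (s (g x)).1.2 e ≠ n := by
      intro n
      induction n with
      | zero =>
        intro x hx h0
        obtain ⟨y, hy, hy'⟩ := (hW' (s (g x)).1.1 (s (g x)).1.2).2 ⟨(s (g x)).2, (hA x hx).1⟩ e
        rw [he] at hy
        rw [← hy, h0] at hy'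
        simp at hy'
      | succ n ih =>
        intro x hx h0
        obtain ⟨y, hy, hy'⟩ := (hW' (s (g x)).1.1 (s (g x)).1.2).2 ⟨(s (g x)).2, (hA x hx).1⟩ e
        rw [he] at hy
        rw [← hy, h0] at hy'
        exact ih _ (hA x hx).2 (by simpa [ap] using hy'.symm)
    ext x
    simp only [Set.mem_empty_iff_false, iff_false]
    exact fun hx => key _ x hx rfl

theorem no_minimal (E : (ℕ → ℕ) → (ℕ → ℕ) → Prop) (hE : HypEqv E)
    (h1 : ¬ HypRed E (fun _ _ => True)) :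
    ∃ F, HypEqv F ∧ (HypRed (fun _ _ => True) F ∧ ¬ HypRed F (fun _ _ => True)) ∧
      (HypRed F E ∧ ¬ HypRed E F) := by
  classical
  obtain ⟨Z, p, hZ, hp, hsurj, hjump⟩ := exists_jump
  have hf : HF (fun u => if Z u then p u else fun _ => 0) := HF.ite hZ hp.hf cmp_zero.hf
  have hx : ∃ x, ¬ E x (fun _ => 0) := by
    by_contra hcon
    push Not at hcon
    exact h1 (hypRed_iff.2 ⟨fun _ _ => 0, cmp_zero.hf, fun x y =>
      ⟨fun _ => trivial, fun _ => hE.1.trans (hcon x) (hE.1.symm (hcon y))⟩⟩)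
  obtain ⟨x₀, hx₀⟩ := hx
  refine ⟨_, hypEqv_pull hE hf, ⟨hypRed_iff.2 ⟨fun _ _ => 0, cmp_zero.hf, fun x y =>
    ⟨fun _ => hE.1.refl _, fun _ => trivial⟩⟩, ?_⟩, hypRed_iff.2 ⟨_, hf, fun _ _ => Iff.rfl⟩, ?_⟩
  · rintro ⟨g, -, hg⟩
    obtain ⟨u, hu, hu'⟩ := hsurj x₀
    obtain ⟨v, hv, hv'⟩ := hsurj (fun _ => 0)
    have := (hg u v).2 trivial
    simp only [hu, hv, hu', hv', if_true] at this
    exact hx₀ this
  · intro hred
    obtain ⟨g, hg, h⟩ := hypRed_iff.1 hred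
    by_cases h0 : Z (g (fun _ => 0))
    · have := hjump (fun _ => g (fun _ => 0)) (hg.compCmp cmp_zero) Set.univ
        (fun _ _ => ⟨h0, trivial⟩)
      exact Set.univ_nonempty.ne_empty this
    · have := hjump g hg {x | ¬ E x (fun _ => 0)} (by
        intro x hx
        have h2 := (h x (fun _ => 0)).not.1 hx
        simp only [h0, if_false] at h2
        by_cases h3 : Z (g x)
        · exact ⟨h3, by simpa [h3] using h2⟩
        · simp only [h3, if_false] at h2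
          exact (h2 (hE.1.refl _)).elim)
      exact (Set.nonempty_iff_ne_empty.1 ⟨x₀, hx₀⟩) this

end Pool.Agent.Lib.MP_ae071c_lc
end
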