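import Mathlib
import Pool.Agent.Lib.MP_ae071c_lc.Q1
import Pool.Agent.Lib.MP_ae071c_lc.FS

namespace Pool.Agent.Lib.MP_ae071c_lc

open Encodable Sp MeasureTheory

theorem Op.isOpen {X : Type} [Sp X] [TopologicalSpace X]
    (hc : ∀ n, Continuous (fun x : X => ev x n)) {P : X → Prop} (h : Op P) :
    IsOpen {x | P x} := by
  obtain ⟨g, -, h⟩ := h.normal
  have : {x | P x} = ⋃ n, ⋂ p ∈ {p | p ∈ g n}, (fun x : X => ev x p.1) ⁻¹' {p.2} := by
    ext x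
    simp [h, Sub]
  rw [this]
  exact isOpen_iUnion fun n => (List.finite_toSet (g n)).isOpen_biInter
    fun p _ => (isOpen_discrete _).preimage (hc p.1)

theorem ce_baire (n : ℕ) : Continuous (fun x : ℕ → ℕ => ev x n) := continuous_apply _

theorem ce_prod {X Y : Type} [Sp X] [TopologicalSpace X] [Sp Y] [TopologicalSpace Y]
    (hX : ∀ n, Continuous (fun x : X => ev x n)) (hY : ∀ n, Continuous (fun x : Y => ev x n))
    (n : ℕ) : Continuous (fun x : X × Y => ev x n) := by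
  simp only [ev_prod]
  cases n.bodd
  · exact (hX _).comp continuous_fst
  · exact (hY _).comp continuous_snd

theorem S11.analytic {X : Type} [Sp X] [TopologicalSpace X] [PolishSpace X]
    (hc : ∀ n, Continuous (fun x : X => ev x n)) {P : X → Prop} (h : S11 P) :
    AnalyticSet {x | P x} := by
  obtain ⟨Q, hQ, h⟩ := h
  have h1 : IsClosed {q | Q q} := ⟨Op.isOpen (ce_prod hc ce_baire) hQ⟩
  have : {x | P x} = Prod.fst '' {q | Q q} := by
    ext x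
    simp [h]
  rw [this]
  exact h1.analyticSet.image_of_continuous continuous_fst

theorem HF.measurable {g : (ℕ → ℕ) → ℕ → ℕ} (hg : HF g) : Measurable g := by
  refine measurable_pi_lambda _ fun n => measurable_to_countable' fun m => ?_
  have h1 : S11 (fun x => ap (g x) n = m) :=
    S11.compHF (P := fun y => ap y n = m) (Cl.eq (by fun_prop) (by fun_prop)).s11 hg
  have h2 : S11 (fun x => ap (g x) n ≠ m) :=
    S11.compHF (P := fun y => ap y n ≠ m) (Cl.ne (by fun_prop) (by fun_prop)).s11 hg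
  exact (h1.analytic ce_baire).measurableSet_of_compl (h2.analytic ce_baire)

theorem Hyp.measurableSet {E : (ℕ → ℕ) → (ℕ → ℕ) → Prop} (hE : Hyp E) :
    MeasurableSet {z : (ℕ → ℕ) × (ℕ → ℕ) | E z.1 z.2} :=
  ((hyp_iff.1 hE).1.analytic (ce_prod ce_baire ce_baire)).measurableSet_of_compl
    ((hyp_iff.1 hE).2.analytic (ce_prod ce_baire ce_baire))

/-- Decoding a real into a sequence of flagged reals. -/
def dec (x : ℕ → ℕ) (i : ℕ) : ℕ × (ℕ → ℕ) :=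
  (ap x (Nat.pair i 0), fun n => ap x (Nat.pair i (n + 1)))

def enc (z : ℕ → ℕ × (ℕ → ℕ)) (m : ℕ) : ℕ :=
  if m.unpair.2 = 0 then (z m.unpair.1).1 else (z m.unpair.1).2 (m.unpair.2 - 1)

theorem dec_enc (z : ℕ → ℕ × (ℕ → ℕ)) : dec (enc z) = z := by
  funext i
  simp [dec, enc, ap]

theorem measurable_enc : Measurable enc := by
  refine measurable_pi_lambda _ fun m => ?_
  unfold enc
  split_ifs
  · exact (measurable_pi_apply _).fst
  · exact (measurable_pi_apply _).comp (measurable_pi_apply _).snd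

theorem cmp_dec : Cmp dec := by
  refine Cmp.lam (Cmp.pair (by fun_prop) (Cmp.lam ?_))
  fun_prop

/-- The constant sequence. -/
def iota (u : ℕ → ℕ) : ℕ → ℕ := enc (fun _ => (1, u))

theorem cmp_iota : Cmp iota := by
  refine Cmp.lam ?_
  have h1 : Cmp (fun q : (ℕ → ℕ) × ℕ => q.2.unpair.2 - 1) :=
    Cmp.primrec₂ Primrec.nat_sub (by fun_prop) (by fun_prop)
  exact Cmp.primrec₂ (g := fun a b : ℕ => if a = 0 then 1 else b)
    (Primrec.ite (Primrec.eq.comp .fst (Primrec.const 0)) (Primrec.const 1) .snd)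
    (f := fun q : (ℕ → ℕ) × ℕ => q.2.unpair.2) (by fun_prop)
    (f' := fun q : (ℕ → ℕ) × ℕ => ap q.1 (q.2.unpair.2 - 1)) (by fun_prop)

section
variable {E : (ℕ → ℕ) → (ℕ → ℕ) → Prop}

/-- The jump as a relation on Baire space. -/
def JB (E : (ℕ → ℕ) → (ℕ → ℕ) → Prop) (x y : ℕ → ℕ) : Prop := Jump E (dec x) (dec y)

theorem jb_iota (hE : Equivalence E) (u v : ℕ → ℕ) : JB E (iota u) (iota v) ↔ E u v := by
  simp only [JB, iota, dec_enc, Jump, Half]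
  exact ⟨fun h => by simpa using h.1 0, fun h => by simp [h, hE.symm h]⟩

theorem s11_half (hE : Hyp E) :
    S11 (fun p : (ℕ → ℕ) × (ℕ → ℕ) => Half E (dec p.1) (dec p.2)) ∧
    S11 (fun p : (ℕ → ℕ) × (ℕ → ℕ) => ¬ Half E (dec p.1) (dec p.2)) := by
  obtain ⟨h1, h2⟩ := hyp_iff.1 hE
  have hd := cmp_dec
  have h3 : Cl (fun q : ((ℕ → ℕ) × (ℕ → ℕ)) × ℕ => (ap (dec q.1.1) q.2).1 = 0) :=
    Cl.eq (by fun_prop) (by fun_prop)
  have h4 : Cl (fun q : (((ℕ → ℕ) × (ℕ → ℕ)) × ℕ) × ℕ => (ap (dec q.1.1.2) q.2).1 = 0) :=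
    Cl.eq (by fun_prop) (by fun_prop)
  have h5 : Cmp (fun q : (((ℕ → ℕ) × (ℕ → ℕ)) × ℕ) × ℕ =>
    ((ap (dec q.1.1.1) q.1.2).2, (ap (dec q.1.1.2) q.2).2)) :=
    (Cmp.ap (hd.comp' (by fun_prop)) (by fun_prop)).snd.pair
      (Cmp.ap (hd.comp' (by fun_prop)) (by fun_prop)).snd
  constructor
  · refine (h3.s11.or ((Op.s11 h4).and (h1.comp h5)).ex).all.of_iff ?_
    intro p
    simp only [Half, ap, imp_iff_not_or, ne_eq, not_not]
  · refine ((Op.s11 h3).and (h4.s11.or (h2.comp h5)).all).ex.of_iff ?_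
    intro p
    simp only [Half, ap, not_forall, not_exists, not_and_or, ne_eq, not_not, exists_prop]

theorem hypEqv_jb (hE : HypEqv E) : HypEqv (JB E) := by
  obtain ⟨h1, h2⟩ := s11_half hE.2
  have hs : Cmp (fun p : (ℕ → ℕ) × (ℕ → ℕ) => (p.2, p.1)) := by fun_prop
  have ht : ∀ x y z, Half E x y → Half E y z → Half E x z := by
    intro x y z h h' i hi
    obtain ⟨j, hj, hj'⟩ := h i hi
    obtain ⟨k, hk, hk'⟩ := h' j hj
    exact ⟨k, hk, hE.1.trans hj' hk'⟩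
  refine ⟨⟨fun x => ⟨fun i hi => ⟨i, hi, hE.1.refl _⟩, fun i hi => ⟨i, hi, hE.1.refl _⟩⟩,
    fun h => ⟨h.2, h.1⟩, fun h h' => ⟨ht _ _ _ h.1 h'.1, ht _ _ _ h'.2 h.2⟩⟩,
    hyp_iff.2 ⟨h1.and (h1.comp hs), (h2.or (h2.comp hs)).of_iff fun p => not_and_or⟩⟩

theorem not_red_jb (hE : HypEqv E) (k : (ℕ → ℕ) → ℕ → ℕ) (hk : Measurable k) :
    ¬ ∀ x y, JB E x y ↔ E (k x) (k y) := by
  intro h
  refine friedman_stanley hE.1 hE.2.measurableSet (fun z => k (enc z)) (hk.comp measurable_enc) ?_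
  intro x y
  rw [← h, JB, dec_enc, dec_enc]

end

def zpart (x : ℕ → ℕ) (n : ℕ) : ℕ := ap x (2 * n + 1)
def upart (x : ℕ → ℕ) (n : ℕ) : ℕ := ap x (2 * n + 2)

theorem cmp_zpart : Cmp zpart := Cmp.lam (by unfold zpart; fun_prop)
theorem cmp_upart : Cmp upart := Cmp.lam (by unfold upart; fun_prop)

/-- Joining a flag and two reals. -/
def join (b : ℕ) (z u : ℕ → ℕ) (m : ℕ) : ℕ :=
  if m = 0 then b else if m % 2 = 1 then z (m / 2) else u (m / 2 - 1)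

theorem zpart_join (b : ℕ) (z u : ℕ → ℕ) : zpart (join b z u) = z := by
  funext n
  have h1 : (2 * n + 1) / 2 = n := by omega
  simp [zpart, join, ap, h1]

theorem upart_join (b : ℕ) (z u : ℕ → ℕ) : upart (join b z u) = u := by
  funext n
  simp [upart, join, ap]

theorem measurable_join (b : ℕ) (z : ℕ → ℕ) : Measurable (join b z) := by
  refine measurable_pi_lambda _ fun m => ?_
  unfold join
  split_ifs
  · exact measurable_const
  · exact measurable_const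
  · exact measurable_pi_apply _

def low (u : ℕ → ℕ) (m : ℕ) : ℕ := if m = 0 then 0 else ap u (m / 2 - 1)

theorem upart_low (u : ℕ → ℕ) : upart (low u) = u := by
  funext n
  simp [upart, low, ap]

theorem cmp_low : Cmp low := by
  refine Cmp.lam ?_
  have h1 : Cmp (fun q : (ℕ → ℕ) × ℕ => q.2 / 2 - 1) :=
    Cmp.primrec₂ Primrec.nat_sub (Cmp.primrec₂ Primrec.nat_div (by fun_prop) (by fun_prop))
      (by fun_prop)
  exact Cmp.primrec₂ (g := fun a b : ℕ => if a = 0 then 0 else b)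
    (Primrec.ite (Primrec.eq.comp .fst (Primrec.const 0)) (Primrec.const 0) .snd)
    (f := fun q : (ℕ → ℕ) × ℕ => q.2) (by fun_prop)
    (f' := fun q : (ℕ → ℕ) × ℕ => ap q.1 (q.2 / 2 - 1)) (by fun_prop)

open Classical in
/-- The map along which the jump is pulled back. -/
noncomputable def sw (Z : (ℕ → ℕ) → Prop) (x : ℕ → ℕ) : ℕ → ℕ :=
  if ap x 0 = 1 ∧ Z (zpart x) then upart x else iota (upart x)

theorem hf_sw {X : Type} [Sp X] {Z : X × (ℕ → ℕ) → Prop} (hZ : Cl Z) :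
    HF (fun q : X × (ℕ → ℕ) => sw (fun z => Z (q.1, z)) q.2) := by
  classical
  have h1 := cmp_zpart
  have h2 := cmp_upart
  have h3 := cmp_iota
  have h4 : Cl (fun q : X × (ℕ → ℕ) => ap q.2 0 = 1 ∧ Z (q.1, zpart q.2)) :=
    (Cl.eq (by fun_prop) (by fun_prop)).and (hZ.comp (by fun_prop))
  have h5 := HF.ite h4 (f := fun q : X × (ℕ → ℕ) => upart q.2)
    (g := fun q : X × (ℕ → ℕ) => iota (upart q.2)) (Cmp.hf (by fun_prop)) (Cmp.hf (by fun_prop))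
  convert h5 using 2
  simp only [sw]

/-- The relation attached to a closed set `Z`. -/
def FZ (E : (ℕ → ℕ) → (ℕ → ℕ) → Prop) (Z : (ℕ → ℕ) → Prop) (x y : ℕ → ℕ) : Prop :=
  JB E (sw Z x) (sw Z y)

theorem red_FZ {E : (ℕ → ℕ) → (ℕ → ℕ) → Prop} (hE : HypEqv E) (Z : (ℕ → ℕ) → Prop) :
    HypRed E (FZ E Z) := by
  refine hypRed_iff.2 ⟨low, cmp_low.hf, fun x y => ?_⟩
  have h : ∀ u, sw Z (low u) = iota u := by
    intro u
    simp [sw, upart_low, low, ap]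
  rw [FZ, h, h, jb_iota hE.1]

theorem not_red_FZ {E : (ℕ → ℕ) → (ℕ → ℕ) → Prop} (hE : HypEqv E) {Z Z' : (ℕ → ℕ) → Prop}
    (hZ : ∃ z, Z z) (hZ' : ¬ ∃ z, Z' z) : ¬ HypRed (FZ E Z) (FZ E Z') := by
  intro h
  obtain ⟨g, hg, h⟩ := hypRed_iff.1 h
  obtain ⟨z, hz⟩ := hZ
  refine not_red_jb hE (fun u => upart (g (join 1 z u)))
    (cmp_upart.hf.measurable.comp (hg.measurable.comp (measurable_join 1 z))) fun x y => ?_
  have h1 : ∀ u, sw Z (join 1 z u) = u := by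
    intro u
    have : ap (join 1 z u) 0 = 1 := by simp [ap, join]
    simp [sw, this, zpart_join, upart_join, hz]
  have h2 : ∀ v, sw Z' v = iota (upart v) := by
    intro v
    have : ¬ Z' (zpart v) := fun h => hZ' ⟨_, h⟩
    simp [sw, this]
  have := h (join 1 z x) (join 1 z y)
  rwa [FZ, FZ, h1, h1, h2, h2, jb_iota hE.1] at this

/-- Non-reducibility is `Σ¹₁` in the parameters. -/
theorem s11_not_red {X : Type} [Sp X] {F G : X → (ℕ → ℕ) → (ℕ → ℕ) → Prop}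
    (hF : S11 (fun q : X × (ℕ → ℕ) × (ℕ → ℕ) => F q.1 q.2.1 q.2.2))
    (hF' : S11 (fun q : X × (ℕ → ℕ) × (ℕ → ℕ) => ¬ F q.1 q.2.1 q.2.2))
    (hG : S11 (fun q : X × (ℕ → ℕ) × (ℕ → ℕ) => G q.1 q.2.1 q.2.2))
    (hG' : S11 (fun q : X × (ℕ → ℕ) × (ℕ → ℕ) => ¬ G q.1 q.2.1 q.2.2)) :
    S11 (fun a => ¬ HypRed (F a) (G a)) := by
  obtain ⟨Γ, hΓ, htot, huniv⟩ := exists_param
  have c1 : Cmp (fun q : (X × ℕ) × ((ℕ → ℕ) × (ℕ → ℕ)) × ((ℕ → ℕ) × (ℕ → ℕ)) =>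
    (q.1.2, q.2.1.1, q.2.2.1)) := by fun_prop
  have c2 : Cmp (fun q : (X × ℕ) × ((ℕ → ℕ) × (ℕ → ℕ)) × ((ℕ → ℕ) × (ℕ → ℕ)) =>
    (q.1.2, q.2.1.2, q.2.2.2)) := by fun_prop
  have c3 : Cmp (fun q : (X × ℕ) × ((ℕ → ℕ) × (ℕ → ℕ)) × ((ℕ → ℕ) × (ℕ → ℕ)) =>
    (q.1.1, q.2.1)) := by fun_prop
  have c4 : Cmp (fun q : (X × ℕ) × ((ℕ → ℕ) × (ℕ → ℕ)) × ((ℕ → ℕ) × (ℕ → ℕ)) =>
    (q.1.1, q.2.2)) := by fun_prop
  have h1 : Cl (fun q : (X × ℕ) × ((ℕ → ℕ) × (ℕ → ℕ)) × ((ℕ → ℕ) × (ℕ → ℕ)) =>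
    q.2.1.1 = q.2.1.2) := Cl.funeq (by fun_prop) (by fun_prop)
  have h2 : Cl (fun q : (X × ℕ) × ((ℕ → ℕ) × (ℕ → ℕ)) × ((ℕ → ℕ) × (ℕ → ℕ)) =>
    q.2.2.1 = q.2.2.2) := Cl.funeq (by fun_prop) (by fun_prop)
  refine ((hΓ.comp c1).and ((hΓ.comp c2).and ((h1.s11.and (Op.s11 h2)).or
    (((hF.comp c3).and (hG'.comp c4)).or ((hF'.comp c3).and (hG.comp c4)))))).ex.all.of_iff ?_
  intro a
  simp only [Prod.exists]
  constructor
  · intro hn e
    by_contra hcon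
    push Not at hcon
    choose g hg using htot e
    have hg' : ∀ x y, Γ (e, x, y) ↔ g x = y :=
      fun x y => ⟨fun h => (hcon x x (g x) y (hg x) h).1 rfl, fun h => h ▸ hg x⟩
    refine hn (hypRed_iff.2 ⟨g, ?_, fun x y => ?_⟩)
    · exact (hΓ.comp (f := fun p : (ℕ → ℕ) × (ℕ → ℕ) => (e, p)) (by fun_prop)).of_iff
        fun p => (hg' p.1 p.2).symm
    · have := (hcon x y (g x) (g y) (hg x) (hg y)).2
      tauto
  · intro H hred
    obtain ⟨g, hg, h⟩ := hypRed_iff.1 hred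
    obtain ⟨e, he⟩ := huniv g hg
    obtain ⟨x, x', y, y', h3, h4, h5⟩ := H e
    rw [he] at h3 h4
    subst h3 h4
    have := h x x'
    rcases h5 with ⟨rfl, h5⟩ | h5 | h5
    · exact h5 rfl
    · exact h5.2 (this.1 h5.1)
    · exact h5.1 (this.2 h5.2)

theorem incomparable_above (E : (ℕ → ℕ) → (ℕ → ℕ) → Prop) (hE : HypEqv E) :
    ∃ F G, HypEqv F ∧ HypEqv G ∧ HypRed E F ∧ HypRed E G ∧ ¬ HypRed F G ∧ ¬ HypRed G F := by
  obtain ⟨U, hU, huniv⟩ := cl_universal (ℕ × ℕ × (ℕ → ℕ))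
  have hJ := hypEqv_jb hE
  obtain ⟨hJ1, hJ2⟩ := hyp_iff.1 hJ.2
  have hsw : ∀ i : ℕ, HF (fun q : ℕ × (ℕ → ℕ) => sw (fun z => U (q.1, (q.1, i, z))) q.2) :=
    fun i => hf_sw (Z := fun q : ℕ × (ℕ → ℕ) => U (q.1, (q.1, i, q.2))) (hU.comp (by fun_prop))
  have hF : ∀ i : ℕ, S11 (fun q : ℕ × (ℕ → ℕ) × (ℕ → ℕ) =>
      FZ E (fun z => U (q.1, (q.1, i, z))) q.2.1 q.2.2) := fun i =>
    hJ1.pull ((hsw i).compCmp (g := fun q : ℕ × (ℕ → ℕ) × (ℕ → ℕ) => (q.1, q.2.1)) (by fun_prop))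
      ((hsw i).compCmp (g := fun q : ℕ × (ℕ → ℕ) × (ℕ → ℕ) => (q.1, q.2.2)) (by fun_prop))
  have hF' : ∀ i : ℕ, S11 (fun q : ℕ × (ℕ → ℕ) × (ℕ → ℕ) =>
      ¬ FZ E (fun z => U (q.1, (q.1, i, z))) q.2.1 q.2.2) := fun i =>
    S11.pull (A := fun x y => ¬ JB E x y) hJ2
      ((hsw i).compCmp (g := fun q : ℕ × (ℕ → ℕ) × (ℕ → ℕ) => (q.1, q.2.1)) (by fun_prop))
      ((hsw i).compCmp (g := fun q : ℕ × (ℕ → ℕ) × (ℕ → ℕ) => (q.1, q.2.2)) (by fun_prop))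
  have hN : ∀ i j : ℕ, S11 (fun a : ℕ => ¬ HypRed (FZ E (fun z => U (a, (a, i, z))))
      (FZ E (fun z => U (a, (a, j, z))))) := fun i j =>
    s11_not_red (F := fun a => FZ E (fun z => U (a, (a, i, z))))
      (G := fun a => FZ E (fun z => U (a, (a, j, z)))) (hF i) (hF' i) (hF j) (hF' j)
  obtain ⟨T, hT, hT'⟩ := (hN 0 1).tree
  obtain ⟨S, hS, hS'⟩ := (hN 1 0).tree
  obtain ⟨Q, hQ, hQ'⟩ := s11_rk_le hT hS (s := fun _ => []) (s' := fun _ => [])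
    (by fun_prop) (by fun_prop)
  have h1 : Cl (fun q : ℕ × ℕ => T (q.1, snoc [] q.2)) := hT.comp (by fun_prop)
  have h2 := s11_rk_le (X := ℕ × ℕ) (T := fun q => S (q.1.1, q.2)) (T' := fun q => T (q.1.1, q.2))
    (hS.comp (by fun_prop)) (hT.comp (by fun_prop)) (s := fun _ => [])
    (s' := fun q => snoc [] q.2) (by fun_prop) (by fun_prop)
  obtain ⟨R, hR, hR'⟩ := (h1.s11.and h2).ex
  have h3 : Cl (fun q : ℕ × ℕ × (ℕ → ℕ) =>
      (q.2.1 = 0 ∧ Q (q.1, q.2.2)) ∨ (q.2.1 = 1 ∧ R (q.1, q.2.2))) :=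
    ((Cl.eq (by fun_prop) (by fun_prop)).and (hQ.comp (by fun_prop))).or
      ((Cl.eq (by fun_prop) (by fun_prop)).and (hR.comp (by fun_prop)))
  obtain ⟨a, ha⟩ := huniv _ h3
  have h4 : (∃ z, U (a, (a, 0, z))) ↔ rk (fun u => T (a, u)) [] ≤ rk (fun u => S (a, u)) [] := by
    simp [← ha, hQ']
  have h5 : (∃ z, U (a, (a, 1, z))) ↔ ∃ b, T (a, snoc [] b) ∧
      rk (fun u => S (a, u)) [] ≤ rk (fun u => T (a, u)) (snoc [] b) := by
    simp [← ha, hR']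
  have hEq : ∀ i : ℕ, HypEqv (FZ E (fun z => U (a, (a, i, z)))) := fun i =>
    hypEqv_pull hJ ((hsw i).compCmp (g := fun x : ℕ → ℕ => (a, x)) (by fun_prop))
  have key : rk (fun u => T (a, u)) [] = ⊤ ∧ rk (fun u => S (a, u)) [] = ⊤ := by
    by_contra hcon
    rcases le_or_gt (rk (fun u => T (a, u)) []) (rk (fun u => S (a, u)) []) with hle | hlt
    · have h6 : rk (fun u => T (a, u)) [] ≠ ⊤ := fun h => hcon ⟨h, top_le_iff.1 (h ▸ hle)⟩
      refine h6 ((hT' a).1 (not_red_FZ hE (h4.2 hle) ?_))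
      rw [h5]
      rintro ⟨b, hb, hb'⟩
      exact absurd (hle.trans hb') (not_le.2 (rk_child_lt h6 hb))
    · exact hlt.ne_top ((hS' a).1 (not_red_FZ hE (h5.2 (exists_child_ge hlt))
        (by rw [h4]; exact not_le.2 hlt)))
  exact ⟨_, _, hEq 0, hEq 1, red_FZ hE _, red_FZ hE _, (hT' a).2 key.1, (hS' a).2 key.2⟩

end Pool.Agent.Lib.MP_ae071c_lc
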